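import Pool.Agent.Lib_helper75.CohenRandom.Ideal
import Pool.Agent.Lib_helper75.BVM.CohenAlgebra

/-!
The complete Boolean algebra of the measurable sets of the product modulo the negligible sets.
-/

set_option autoImplicit false

namespace Pool.Agent.CR

open Filter Topology Set MeasureTheory TopologicalSpace Pool.Agent.BVM

variable {Z : Type} [MeasurableSpace Z] (μ : Measure Z)

/-- The measurable sets that are not negligible. -/
structure Pos where
  carrier : Set (Y × Z)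
  meas : MeasurableSet carrier
  pos : ¬ Neg μ carrier

/-- The topology of the sets that are closed under smaller sets, modulo negligible sets. -/
instance : TopologicalSpace (Pos μ) where
  IsOpen s := ∀ p ∈ s, ∀ q : Pos μ, Neg μ (q.carrier \ p.carrier) → q ∈ s
  isOpen_univ := fun _ _ _ _ => trivial
  isOpen_inter := fun _ _ hs ht p hp q hq => ⟨hs p hp.1 q hq, ht p hp.2 q hq⟩
  isOpen_sUnion := fun _ h p ⟨t, ht, hp⟩ q hq => ⟨t, ht, h t ht p hp q hq⟩

variable {μ}

theorem isOpen_pos_iff {s : Set (Pos μ)} :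
    IsOpen s ↔ ∀ p ∈ s, ∀ q : Pos μ, Neg μ (q.carrier \ p.carrier) → q ∈ s := Iff.rfl

theorem mem_compl_iff' {O : Opens (Pos μ)} {p : Pos μ} :
    p ∈ Oᶜ ↔ ∀ q : Pos μ, Neg μ (q.carrier \ p.carrier) → q ∉ O := by
  constructor
  · intro hp q hq hqO
    have h1 : q ∈ (Oᶜ : Opens (Pos μ)) := (Oᶜ : Opens (Pos μ)).isOpen p hp q hq
    have h2 : q ∈ (O ⊓ Oᶜ : Opens (Pos μ)) := ⟨hqO, h1⟩
    rw [inf_compl_self] at h2
    exact h2
  · intro h
    let V : Opens (Pos μ) := ⟨{q | Neg μ (q.carrier \ p.carrier)}, by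
      intro q hq r hr
      exact (hr.union hq).mono (by
        intro x hx
        by_cases hxq : x ∈ q.carrier
        · exact Or.inr ⟨hxq, hx.2⟩
        · exact Or.inl ⟨hx.1, hxq⟩)⟩
    have h1 : V ≤ Oᶜ := by
      rw [le_compl_iff_disjoint_right, disjoint_iff_inf_le]
      rintro q ⟨hq1, hq2⟩
      exact absurd hq2 (h q hq1)
    refine h1 ?_
    show Neg μ (p.carrier \ p.carrier)
    rw [diff_self]
    exact neg_empty

/-- The open set of the positive sets that are contained in `A`. -/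
def below (A : Set (Y × Z)) : Opens (Pos μ) := ⟨{q | Neg μ (q.carrier \ A)}, by
  intro q hq r hr
  exact (hr.union hq).mono (by
    intro x hx
    by_cases hxq : x ∈ q.carrier
    · exact Or.inr ⟨hxq, hx.2⟩
    · exact Or.inl ⟨hx.1, hxq⟩)⟩

theorem mem_below {A : Set (Y × Z)} {p : Pos μ} : p ∈ below A ↔ Neg μ (p.carrier \ A) := Iff.rfl

theorem below_compl {A : Set (Y × Z)} (hA : MeasurableSet A) :
    (below A : Opens (Pos μ))ᶜ = below Aᶜ := by
  refine Opens.ext ?_
  ext p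
  show p ∈ (below A : Opens (Pos μ))ᶜ ↔ p ∈ below Aᶜ
  rw [mem_compl_iff', mem_below, diff_compl]
  constructor
  · intro h
    by_contra hcon
    refine h ⟨p.carrier ∩ A, p.meas.inter hA, hcon⟩ ?_ ?_
    · exact neg_empty.mono (fun x hx => hx.2 hx.1.1)
    · exact neg_empty.mono (fun x hx => hx.2 hx.1.2)
  · intro h q hq hq'
    apply q.pos
    refine ((hq.union hq').union h).mono ?_
    intro x hx
    by_cases h1 : x ∈ p.carrier
    · by_cases h2 : x ∈ A
      · exact Or.inr ⟨h1, h2⟩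
      · exact Or.inl (Or.inr ⟨hx, h2⟩)
    · exact Or.inl (Or.inl ⟨hx, h1⟩)

/-- The algebra. -/
abbrev CRAlg (μ : Measure Z) : Type := RO (Pos μ)

/-- The element of the algebra given by a set. -/
def phi (A : Set (Y × Z)) : CRAlg μ := RO.reg (below A)

theorem op_phi {A : Set (Y × Z)} (hA : MeasurableSet A) :
    RO.op (phi A : CRAlg μ) = below A := by
  unfold phi
  rw [RO.op_reg, below_compl hA, below_compl hA.compl, compl_compl]

theorem mem_phi {A : Set (Y × Z)} (hA : MeasurableSet A) {p : Pos μ} :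
    p ∈ RO.op (phi A : CRAlg μ) ↔ Neg μ (p.carrier \ A) := by
  rw [op_phi hA]
  exact Iff.rfl

theorem phi_compl {A : Set (Y × Z)} (hA : MeasurableSet A) :
    (phi Aᶜ : CRAlg μ) = (phi A)ᶜ := by
  apply RO.op_injective
  rw [RO.op_compl, op_phi hA, op_phi hA.compl, below_compl hA]

theorem phi_le_iff {A A' : Set (Y × Z)} (hA : MeasurableSet A) (hA' : MeasurableSet A') :
    (phi A : CRAlg μ) ≤ phi A' ↔ Neg μ (A \ A') := by
  constructor
  · intro h
    by_contra hcon
    have h1 : (⟨A \ A', hA.diff hA', hcon⟩ : Pos μ) ∈ RO.op (phi A' : CRAlg μ) := by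
      refine h ?_
      show (⟨A \ A', hA.diff hA', hcon⟩ : Pos μ) ∈ RO.op (phi A : CRAlg μ)
      rw [mem_phi hA]
      exact neg_empty.mono (fun x hx => hx.2 hx.1.1)
    rw [mem_phi hA'] at h1
    exact hcon (h1.mono fun x hx => ⟨hx, hx.2⟩)
  · intro h p hp
    have hp' : p ∈ RO.op (phi A : CRAlg μ) := hp
    rw [mem_phi hA] at hp'
    show p ∈ RO.op (phi A' : CRAlg μ)
    rw [mem_phi hA']
    refine (hp'.union h).mono ?_
    intro x hx
    by_cases h1 : x ∈ A
    · exact Or.inr ⟨h1, hx.2⟩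
    · exact Or.inl ⟨hx.1, h1⟩

theorem phi_eq_iff {A A' : Set (Y × Z)} (hA : MeasurableSet A) (hA' : MeasurableSet A') :
    (phi A : CRAlg μ) = phi A' ↔ Neg μ (A \ A') ∧ Neg μ (A' \ A) := by
  rw [← phi_le_iff hA hA', ← phi_le_iff hA' hA]
  exact le_antisymm_iff

theorem phi_eq_bot_iff {A : Set (Y × Z)} (hA : MeasurableSet A) :
    (phi A : CRAlg μ) = ⊥ ↔ Neg μ A := by
  constructor
  · intro h
    by_contra hcon
    have h1 : (⟨A, hA, hcon⟩ : Pos μ) ∈ RO.op (phi A : CRAlg μ) := by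
      rw [mem_phi hA]
      exact neg_empty.mono (fun x hx => hx.2 hx.1)
    exact RO.eq_bot_iff_forall.mp h _ h1
  · intro h
    rw [RO.eq_bot_iff_forall]
    intro p hp
    rw [mem_phi hA] at hp
    refine p.pos ((hp.union h).mono ?_)
    intro x hx
    by_cases h1 : x ∈ A
    · exact Or.inr h1
    · exact Or.inl ⟨hx, h1⟩

theorem phi_empty : (phi ∅ : CRAlg μ) = ⊥ := (phi_eq_bot_iff MeasurableSet.empty).mpr neg_empty

theorem phi_univ : (phi univ : CRAlg μ) = ⊤ := by
  rw [← compl_empty, phi_compl MeasurableSet.empty, phi_empty, compl_bot]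

theorem phi_mono {A A' : Set (Y × Z)} (hA : MeasurableSet A) (hA' : MeasurableSet A')
    (h : A ⊆ A') : (phi A : CRAlg μ) ≤ phi A' :=
  (phi_le_iff hA hA').mpr (neg_empty.mono fun _ hx => hx.2 (h hx.1))

theorem phi_iUnion {ι : Sort*} [Countable ι] {A : ι → Set (Y × Z)}
    (hA : ∀ i, MeasurableSet (A i)) : (phi (⋃ i, A i) : CRAlg μ) = ⨆ i, phi (A i) := by
  have hU : MeasurableSet (⋃ i, A i) := MeasurableSet.iUnion hA
  refine le_antisymm ?_ (iSup_le fun i => phi_mono (hA i) hU (subset_iUnion A i))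
  set c : CRAlg μ := ⨆ i, phi (A i) with hc
  have hle : ∀ i, (phi (A i) : CRAlg μ) ≤ c := fun i => le_iSup (fun i => phi (A i)) i
  rw [← compl_le_compl_iff_le]
  intro p hp
  have hp' : p ∈ (RO.op c)ᶜ := hp
  rw [mem_compl_iff'] at hp'
  show p ∈ (RO.op (phi (⋃ i, A i) : CRAlg μ))ᶜ
  rw [mem_compl_iff', op_phi hU]
  intro q hq hq'
  rw [mem_below] at hq'
  have h1 : ∃ i, ¬ Neg μ (q.carrier ∩ A i) := by
    by_contra hcon
    push Not at hcon
    apply q.pos
    have : Neg μ (⋃ j : PLift ι, q.carrier ∩ A j.down) := Neg.iUnion fun j => hcon j.down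
    refine (hq'.union this).mono ?_
    intro x hx
    by_cases h2 : x ∈ ⋃ i, A i
    · obtain ⟨i, hi⟩ := mem_iUnion.mp h2
      exact Or.inr (mem_iUnion.mpr ⟨⟨i⟩, hx, hi⟩)
    · exact Or.inl ⟨hx, h2⟩
  obtain ⟨i, hi⟩ := h1
  let r : Pos μ := ⟨q.carrier ∩ A i, q.meas.inter (hA i), hi⟩
  refine hp' r ?_ ?_
  · exact hq.mono fun x hx => ⟨hx.1.1, hx.2⟩
  · refine hle i ?_
    show r ∈ RO.op (phi (A i) : CRAlg μ)
    rw [mem_phi (hA i)]
    exact neg_empty.mono (fun x hx => hx.2 hx.1.2)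

theorem phi_iInter {ι : Sort*} [Countable ι] {A : ι → Set (Y × Z)}
    (hA : ∀ i, MeasurableSet (A i)) : (phi (⋂ i, A i) : CRAlg μ) = ⨅ i, phi (A i) := by
  have h1 : (⋂ i, A i) = (⋃ i, (A i)ᶜ)ᶜ := by simp
  rw [h1, phi_compl (MeasurableSet.iUnion fun i => (hA i).compl),
    phi_iUnion fun i => (hA i).compl]
  simp only [phi_compl (hA _), compl_iSup, compl_compl]

theorem phi_union {A A' : Set (Y × Z)} (hA : MeasurableSet A) (hA' : MeasurableSet A') :
    (phi (A ∪ A') : CRAlg μ) = phi A ⊔ phi A' := by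
  rw [union_eq_iUnion, phi_iUnion (by rintro (_ | _) <;> assumption), iSup_bool_eq]
  rfl

theorem phi_inter {A A' : Set (Y × Z)} (hA : MeasurableSet A) (hA' : MeasurableSet A') :
    (phi (A ∩ A') : CRAlg μ) = phi A ⊓ phi A' := by
  rw [inter_eq_iInter, phi_iInter (by rintro (_ | _) <;> assumption), iInf_bool_eq]
  rfl

theorem phi_himp {A A' : Set (Y × Z)} (hA : MeasurableSet A) (hA' : MeasurableSet A') :
    (phi (Aᶜ ∪ A') : CRAlg μ) = (phi A ⇨ phi A') := by
  rw [phi_union hA.compl hA', phi_compl hA, himp_eq, sup_comm]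

variable [IsProbabilityMeasure μ]

theorem ccc : CCC (CRAlg μ) := by
  intro ι a ha
  have h1 : ∀ i : {i | a i ≠ ⊥}, ∃ p : Pos μ, p ∈ RO.op (a i) := by
    rintro ⟨i, hi⟩
    by_contra hcon
    push Not at hcon
    exact hi (RO.eq_bot_iff_forall.mpr hcon)
  choose p hp using h1
  have : Countable {i | a i ≠ ⊥} := by
    refine countable_of_pairwise (μ := μ) (fun i => (p i).carrier) (fun i => (p i).meas)
      (fun i => (p i).pos) fun i j hij => ?_
    by_contra hcon
    let r : Pos μ := ⟨(p i).carrier ∩ (p j).carrier, (p i).meas.inter (p j).meas, hcon⟩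
    have hi : r ∈ RO.op (a i) := (RO.op (a i)).isOpen _ (hp i) r
      (neg_empty.mono fun x hx => hx.2 hx.1.1)
    have hj : r ∈ RO.op (a j) := (RO.op (a j)).isOpen _ (hp j) r
      (neg_empty.mono fun x hx => hx.2 hx.1.2)
    have h2 := ha i j (fun h => hij (Subtype.ext h))
    exact RO.eq_bot_iff_forall.mp h2 r ⟨hi, hj⟩
  exact this

/-- Each element of the algebra is given by a measurable set. -/
theorem exists_rep (b : CRAlg μ) : ∃ A : Set (Y × Z), MeasurableSet A ∧ phi A = b := by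
  obtain ⟨s, hs, hsup⟩ := ccc.exists_countable_sup
    (fun p : {p : Pos μ // p ∈ RO.op b} => (phi p.1.carrier : CRAlg μ))
  have := hs.to_subtype
  refine ⟨⋃ p : s, p.1.1.carrier, MeasurableSet.iUnion fun p => p.1.1.meas, ?_⟩
  rw [phi_iUnion fun p => p.1.1.meas]
  have h1 : (⨆ p : s, (phi p.1.1.carrier : CRAlg μ)) =
      ⨆ p : {p : Pos μ // p ∈ RO.op b}, phi p.1.carrier := by
    rw [hsup, iSup_subtype']
  rw [h1]
  refine le_antisymm (iSup_le fun p => ?_) ?_
  · intro q hq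
    have hq' : q ∈ RO.op (phi p.1.carrier : CRAlg μ) := hq
    rw [mem_phi p.1.meas] at hq'
    exact (RO.op b).isOpen _ p.2 q hq'
  · intro q hq
    refine le_iSup (fun p : {p : Pos μ // p ∈ RO.op b} => (phi p.1.carrier : CRAlg μ)) ⟨q, hq⟩ ?_
    show q ∈ RO.op (phi q.carrier : CRAlg μ)
    rw [mem_phi q.meas]
    exact neg_empty.mono (fun x hx => hx.2 hx.1)

theorem top_ne_bot : (⊤ : CRAlg μ) ≠ ⊥ := by
  rw [← phi_univ, ne_eq, phi_eq_bot_iff MeasurableSet.univ]
  intro h
  obtain ⟨y, -, hy⟩ := exists_mem_cyl h []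
  have : sec (univ : Set (Y × Z)) y = univ := rfl
  rw [this, measure_univ] at hy
  exact one_ne_zero hy

end Pool.Agent.CR
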