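import Mathlib

/-!
Baire category in the Baire space.
-/

set_option autoImplicit false

namespace Pool.Agent.CR

open Filter Topology Set

/-- The Baire space. -/
abbrev Y : Type := ℕ → ℕ

/-- The basic open set of the sequences that extend `s`. -/
def cyl (s : List ℕ) : Set Y := {y | ∀ i, (h : i < s.length) → y i = s[i]}

theorem mem_cyl {s : List ℕ} {y : Y} : y ∈ cyl s ↔ ∀ i, (h : i < s.length) → y i = s[i] :=
  Iff.rfl

/-- The initial segment of a sequence. -/
def res (y : Y) (k : ℕ) : List ℕ := (List.range k).map y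

theorem length_res (y : Y) (k : ℕ) : (res y k).length = k := by simp [res]

theorem mem_cyl_res {y z : Y} {k : ℕ} : z ∈ cyl (res y k) ↔ ∀ i < k, z i = y i := by
  simp [mem_cyl, res]

theorem cyl_res (y : Y) (k : ℕ) : y ∈ cyl (res y k) := mem_cyl_res.mpr fun _ _ => rfl

theorem cyl_mono {s t : List ℕ} (h : s <+: t) : cyl t ⊆ cyl s := by
  intro y hy i hi
  obtain ⟨u, rfl⟩ := h
  have h1 : i < (s ++ u).length := by simp; omega
  rw [hy i h1, List.getElem_append_left hi]

theorem prefix_res {s : List ℕ} {y : Y} (hy : y ∈ cyl s) {k : ℕ} (hk : s.length ≤ k) :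
    s <+: res y k := by
  rw [List.prefix_iff_eq_take]
  apply List.ext_getElem
  · simp [length_res]; omega
  · intro i h1 h2
    simp [res, hy i h1]

theorem isOpen_cyl (s : List ℕ) : IsOpen (cyl s) := by
  have : cyl s = ⋂ i : Fin s.length, (fun y : Y => y i) ⁻¹' {s[i]} := by
    ext y
    simp only [mem_cyl, mem_iInter, mem_preimage, mem_singleton_iff]
    exact ⟨fun h i => h i i.2, fun h i hi => h ⟨i, hi⟩⟩
  rw [this]
  exact isOpen_iInter_of_finite fun i => (isOpen_discrete _).preimage (continuous_apply _)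

theorem measurableSet_cyl (s : List ℕ) : MeasurableSet (cyl s) := (isOpen_cyl s).measurableSet

theorem exists_res_subset {O : Set Y} (hO : IsOpen O) {y : Y} (hy : y ∈ O) (m : ℕ) :
    ∃ k, m ≤ k ∧ cyl (res y k) ⊆ O := by
  obtain ⟨I, u, hu, hsub⟩ := isOpen_pi_iff.mp hO y hy
  refine ⟨max m (I.sup id + 1), le_max_left _ _, fun z hz => hsub fun i hi => ?_⟩
  rw [mem_cyl_res] at hz
  have h1 : i < max m (I.sup id + 1) := by
    have : i ≤ I.sup id := Finset.le_sup (f := id) hi
    omega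
  rw [hz i h1]
  exact (hu i hi).2

theorem exists_mem_cyl {p : Y → Prop} (hp : ∀ᶠ y in residual Y, p y) (s : List ℕ) :
    ∃ y ∈ cyl s, p y := by
  have h1 : Dense {y | p y} := dense_of_mem_residual hp
  have h2 : (cyl s).Nonempty := ⟨fun i => s.getD i 0, fun i hi => by
    simp [List.getD_eq_getElem?_getD, hi]⟩
  obtain ⟨y, hy1, hy2⟩ := h1.inter_open_nonempty _ (isOpen_cyl s) h2
  exact ⟨y, hy1, hy2⟩

theorem eq_empty_of_residual {O : Set Y} (hO : IsOpen O) (h : ∀ᶠ y in residual Y, y ∉ O) :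
    O = ∅ := by
  by_contra hne
  obtain ⟨y, hy⟩ := nonempty_iff_ne_empty.mpr hne
  obtain ⟨k, -, hk⟩ := exists_res_subset hO hy 0
  obtain ⟨z, hz1, hz2⟩ := exists_mem_cyl h (res y k)
  exact hz2 (hk hz1)

/-- If countably many Borel sets cover a basic open set up to a meager set then one of them
contains a smaller basic open set up to a meager set. -/
theorem pigeon {ι : Type*} [Countable ι] (E : ι → Set Y) (hE : ∀ i, MeasurableSet (E i))
    (s₀ : List ℕ) (h : ∀ᶠ y in residual Y, y ∈ cyl s₀ → ∃ i, y ∈ E i) :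
    ∃ i s, s₀ <+: s ∧ ∀ᶠ y in residual Y, y ∈ cyl s → y ∈ E i := by
  have h1 : ∀ i, ∃ O : Set Y, IsOpen O ∧ (E i ∩ cyl s₀ : Set Y) =ᵇ O := fun i =>
    ((hE i).inter (measurableSet_cyl s₀)).residualEq_isOpen
  choose O hO hEO using h1
  have h2 : ∃ i, (O i ∩ cyl s₀).Nonempty := by
    by_contra hcon
    push Not at hcon
    have h3 : ∀ i, ∀ᶠ y in residual Y, ¬ (y ∈ E i ∧ y ∈ cyl s₀) := by
      intro i
      filter_upwards [(hEO i).mem_iff] with y hy hy'
      have hyO := hy.mp hy'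
      have : y ∈ O i ∩ cyl s₀ := ⟨hyO, hy'.2⟩
      rw [hcon i] at this
      exact this
    have h4 : ∀ᶠ y in residual Y, ∀ i, ¬ (y ∈ E i ∧ y ∈ cyl s₀) :=
      eventually_countable_forall.mpr h3
    obtain ⟨y, hy, hy1, hy2⟩ := exists_mem_cyl (h.and h4) s₀
    obtain ⟨i, hi⟩ := hy1 hy
    exact hy2 i ⟨hi, hy⟩
  obtain ⟨i, y, hyO, hys⟩ := h2
  obtain ⟨k, hk1, hk2⟩ := exists_res_subset (hO i) hyO s₀.length
  refine ⟨i, res y k, prefix_res hys hk1, ?_⟩
  filter_upwards [(hEO i).mem_iff] with z hz hz'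
  exact (hz.mpr (hk2 hz')).1

end Pool.Agent.CR
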