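import Pool.Agent.Lib_helper75.CohenRandom.Key

/-!
Disjoint closed sets, and closed sets in finitely many layers.
-/

set_option autoImplicit false

namespace Pool.Agent.CR

open Filter Topology Set MeasureTheory TopologicalSpace Pool.Agent.BVM

theorem CCC.stab {B : Type} [CompleteBooleanAlgebra B] (h : CCC B) {W : Type} [LinearOrder W]
    [Uncountable W] (hW : ∀ w : W, Countable {v : W // v < w}) {g : W → B} (hg : Antitone g) :
    ∃ α, ∀ β, g α ≤ g β := by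
  obtain ⟨S, hS, hsup⟩ := h.exists_countable_sup (fun α => (g α)ᶜ)
  obtain ⟨α, hα⟩ := bounded_of_countable hW hS
  refine ⟨α, fun β => ?_⟩
  rw [← compl_le_compl_iff_le]
  refine (le_iSup (fun α => (g α)ᶜ) β).trans ?_
  rw [hsup]
  refine iSup₂_le fun v hv => compl_le_compl (hg (hα v hv).le)

theorem exists_closed {W : Type} [LinearOrder W] [WellFoundedLT W] [Uncountable W]
    (hW : ∀ w : W, Countable {v : W // v < w}) (f : W → W) (β : W) :
    ∃ δ, β < δ ∧ ∀ v < δ, f v < δ := by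
  have h1 : ∀ w : W, ∃ w' : W, w < w' ∧ ∀ v ≤ w, f v < w' := by
    intro w
    have h2 : (Iic w).Countable := by
      have h3 : (Iio w).Countable := Set.countable_coe_iff.mp (hW w)
      rw [← Iio_insert]
      exact h3.insert w
    obtain ⟨w', hw'⟩ := bounded_of_countable hW ((h2.image f).insert w)
    exact ⟨w', hw' w (mem_insert _ _), fun v hv => hw' _ (mem_insert_of_mem _ ⟨v, hv, rfl⟩)⟩
  choose g hg1 hg2 using h1
  let w : ℕ → W := fun n => Nat.rec β (fun _ x => g x) n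
  obtain ⟨w', hw'⟩ := bounded_of_countable hW (Set.countable_range w)
  let S : Set W := {x | ∀ n, w n < x}
  have hS : S.Nonempty := ⟨w', fun n => hw' _ (mem_range_self n)⟩
  let δ := (wellFounded_lt (α := W)).min S hS
  have hδ : ∀ n, w n < δ := (wellFounded_lt (α := W)).min_mem S hS
  refine ⟨δ, hδ 0, fun v hv => ?_⟩
  have h4 : v ∉ S := fun h => (wellFounded_lt (α := W)).not_lt_min S h hv
  obtain ⟨n, hn⟩ : ∃ n, v ≤ w n := by
    by_contra hcon
    push Not at hcon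
    exact h4 hcon
  exact (hg2 (w n) v hn).trans (hδ (n + 1))

section

variable {Z : Type} [MeasurableSpace Z] {μ : Measure Z} [IsProbabilityMeasure μ]
variable {W : Type} [LinearOrder W] [WellFoundedLT W] [Uncountable W]

/-- The truth value of the statement that a point of the layer `n` above `α` is in `h`. -/
noncomputable def tl (h : W × ℕ → CRAlg μ) (n : ℕ) (α : W) : CRAlg μ :=
  ⨆ v : {v : W // α < v}, h (v.1, n)

omit [IsProbabilityMeasure μ] [WellFoundedLT W] [Uncountable W] in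
theorem tl_anti (h : W × ℕ → CRAlg μ) (n : ℕ) : Antitone (tl h n) := by
  intro α β hαβ
  exact iSup_le fun v => le_iSup (fun v : {v : W // α < v} => h (v.1, n))
    ⟨v.1, lt_of_le_of_lt hαβ v.2⟩

omit [IsProbabilityMeasure μ] [WellFoundedLT W] [Uncountable W] in
theorem le_tl (h : W × ℕ → CRAlg μ) (t : W × ℕ) {α : W} (ht : α < t.1) : h t ≤ tl h t.2 α :=
  le_iSup (fun v : {v : W // α < v} => h (v.1, t.2)) ⟨t.1, ht⟩

omit [WellFoundedLT W] in
theorem exists_stab (hW : ∀ w : W, Countable {v : W // v < w}) (h : W × ℕ → CRAlg μ) :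
    ∃ α : W, ∀ n β, tl h n α ≤ tl h n β := by
  choose α hα using fun n => CCC.stab (ccc (μ := μ)) hW (tl_anti h n)
  obtain ⟨w, hw⟩ := bounded_of_countable hW (Set.countable_range α)
  exact ⟨w, fun n β => (tl_anti h n (hw _ (mem_range_self n)).le).trans (hα n β)⟩

omit [WellFoundedLT W] in
theorem claimB (hW : ∀ w : W, Countable {v : W // v < w}) (L : Lad W)
    (p : CRAlg μ) (h : W × ℕ → CRAlg μ) (hp : p ≤ Op L (fun t => (h t)ᶜ)) {α : W}
    (hα : ∀ n β, tl h n α ≤ tl h n β) (n : ℕ) :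
    ∃ f : W → W, ∀ δ, α < δ → (∀ v < δ, f v < δ) → p ⊓ tl h n α ≤ h (δ, n + 1) := by
  obtain ⟨f, hf⟩ := claimA hW L (p ⊓ tl h n α) h n (inf_le_left.trans hp)
    (fun β => inf_le_right.trans (hα n β))
  exact ⟨f, fun δ hδ h1 => hf δ ⟨α, hδ⟩ h1⟩

theorem claimC (hW : ∀ w : W, Countable {v : W // v < w}) (L : Lad W)
    (p : CRAlg μ) (h : W × ℕ → CRAlg μ) (hp : p ≤ Op L (fun t => (h t)ᶜ)) {α : W}
    (hα : ∀ n β, tl h n α ≤ tl h n β) {n m : ℕ} (hnm : n ≤ m) :
    p ⊓ tl h n α ≤ p ⊓ tl h m α := by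
  induction m, hnm using Nat.le_induction with
  | base => exact le_rfl
  | succ m _ ih =>
    refine ih.trans (le_inf inf_le_left ?_)
    obtain ⟨f, hf⟩ := claimB hW L p h hp hα m
    obtain ⟨δ, hδ, hδf⟩ := exists_closed hW f α
    exact (hf δ hδ hδf).trans (le_tl h (δ, m + 1) hδ)

/-- Disjoint closed sets: one of them is bounded. -/
theorem disjoint_closed (hW : ∀ w : W, Countable {v : W // v < w}) (L : Lad W)
    (p : CRAlg μ) (h k : W × ℕ → CRAlg μ) (hp : p ≤ Op L (fun t => (h t)ᶜ))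
    (hp' : p ≤ Op L (fun t => (k t)ᶜ)) (hd : ∀ t, p ⊓ h t ⊓ k t = ⊥) :
    ∃ δ₀ : W, p ⊓ (⨆ t : {t : W × ℕ // δ₀ < t.1}, h t.1) ⊓
      (⨆ t : {t : W × ℕ // δ₀ < t.1}, k t.1) = ⊥ := by
  obtain ⟨α, hα⟩ := exists_stab hW h
  obtain ⟨α', hα'⟩ := exists_stab hW k
  refine ⟨max α α', ?_⟩
  rw [← le_bot_iff, inf_iSup_eq]
  refine iSup_le fun t' => ?_
  rw [inf_iSup_eq, iSup_inf_eq]
  refine iSup_le fun t => ?_
  set N := max t.1.2 t'.1.2 with hN
  obtain ⟨f, hf⟩ := claimB hW L p h hp hα N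
  obtain ⟨f', hf'⟩ := claimB hW L p k hp' hα' N
  obtain ⟨δ, hδ, hδf⟩ := exists_closed hW (fun v => max (f v) (f' v)) (max α α')
  have h1 : p ⊓ h t.1 ≤ p ⊓ h (δ, N + 1) := by
    refine le_inf inf_le_left ?_
    refine le_trans (inf_le_inf_left p (le_tl h t.1 (lt_of_le_of_lt (le_max_left _ _) t.2))) ?_
    refine (claimC hW L p h hp hα (le_max_left _ _ : t.1.2 ≤ N)).trans ?_
    exact hf δ (lt_of_le_of_lt (le_max_left _ _) hδ)
      fun v hv => lt_of_le_of_lt (le_max_left _ _) (hδf v hv)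
  have h2 : p ⊓ k t'.1 ≤ p ⊓ k (δ, N + 1) := by
    refine le_inf inf_le_left ?_
    refine le_trans (inf_le_inf_left p (le_tl k t'.1 (lt_of_le_of_lt (le_max_right _ _) t'.2))) ?_
    refine (claimC hW L p k hp' hα' (le_max_right _ _ : t'.1.2 ≤ N)).trans ?_
    exact hf' δ (lt_of_le_of_lt (le_max_right _ _) hδ)
      fun v hv => lt_of_le_of_lt (le_max_right _ _) (hδf v hv)
  calc p ⊓ h t.1 ⊓ k t'.1 ≤ (p ⊓ h t.1) ⊓ (p ⊓ k t'.1) :=
        le_inf inf_le_left (le_inf (inf_le_left.trans inf_le_left) inf_le_right)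
    _ ≤ (p ⊓ h (δ, N + 1)) ⊓ (p ⊓ k (δ, N + 1)) := inf_le_inf h1 h2
    _ ≤ p ⊓ h (δ, N + 1) ⊓ k (δ, N + 1) := le_inf inf_le_left (inf_le_right.trans inf_le_right)
    _ = ⊥ := hd _
    _ ≤ ⊥ := le_rfl

/-- Closed sets in finitely many layers are bounded. -/
theorem bounded_closed (hW : ∀ w : W, Countable {v : W // v < w}) (L : Lad W)
    (p : CRAlg μ) (h : W × ℕ → CRAlg μ) (hp : p ≤ Op L (fun t => (h t)ᶜ)) (N : ℕ)
    (hN : ∀ t : W × ℕ, N ≤ t.2 → p ⊓ h t = ⊥) :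
    ∃ δ₀ : W, ∀ t : W × ℕ, δ₀ < t.1 → p ⊓ h t = ⊥ := by
  obtain ⟨α, hα⟩ := exists_stab hW h
  refine ⟨α, fun t ht => ?_⟩
  rw [← le_bot_iff]
  refine le_trans (inf_le_inf_left p (le_tl h t ht)) ?_
  refine (claimC hW L p h hp hα (le_max_left t.2 N)).trans ?_
  unfold tl
  rw [inf_iSup_eq]
  exact iSup_le fun v => (hN (v.1, max t.2 N) (le_max_right _ _)).le

end

end Pool.Agent.CR
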