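import Pool.Agent.Lib_helper75.BVM.Notions

/-!
Topological spaces, Dowker spaces and Lusin sets in a structure `(M, E)`.
-/

set_option autoImplicit false

universe v

namespace Pool.Agent.CR

open Pool.Agent.BVM

section Notions

variable {M : Type v} (E : M → M → Prop)

/-- `i` is the intersection of `a` and `b`. -/
def IsInter (i a b : M) : Prop := ∀ z, E z i ↔ (E z a ∧ E z b)

/-- `s` is the union of the elements of `d`. -/
def IsUnion (s d : M) : Prop := ∀ z, E z s ↔ ∃ o, E o d ∧ E z o

/-- `a` and `b` are disjoint. -/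
def IsDisjoint (a b : M) : Prop := ∀ z, ¬ (E z a ∧ E z b)

/-- `t` is a topology on the set `x` (the set of the open sets). -/
structure IsTopology (x t : M) : Prop where
  sub : ∀ o, E o t → IsSub E o x
  whole : E x t
  inter : ∀ o o' i, E o t → E o' t → IsInter E i o o' → E i t
  union : ∀ d s, IsSub E d t → IsUnion E s d → E s t

/-- `c` is a closed subset of the space `x` with the topology `t`. -/
def IsClosedSet (x t c : M) : Prop := IsSub E c x ∧ ∃ o, E o t ∧ IsDiff E o x c

/-- The `T₁` separation axiom. -/
def IsT1 (x t : M) : Prop := ∀ a b, E a x → E b x → a ≠ b → ∃ o, E o t ∧ E a o ∧ ¬ E b o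

/-- Disjoint closed sets have disjoint open neighbourhoods. -/
def IsNormalSpace (x t : M) : Prop :=
  ∀ c d, IsClosedSet E x t c → IsClosedSet E x t d → IsDisjoint E c d →
    ∃ o o', E o t ∧ E o' t ∧ IsSub E c o ∧ IsSub E d o' ∧ IsDisjoint E o o'

/-- `f` is a function with domain `w`. -/
def IsSeq (w f : M) : Prop :=
  (∀ p, E p f → ∃ n a, E n w ∧ IsPair E p n a) ∧ ∀ n, E n w → ∃! a, Rel E f n a

/-- There are closed sets `D₀ ⊇ D₁ ⊇ …` with empty intersection such that every choice of open
sets `Gₙ ⊇ Dₙ` has a nonempty intersection. -/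
def HasDowkerSequence (x t : M) : Prop :=
  ∃ w d, IsOmega E w ∧ IsSeq E w d ∧
    (∀ n c, Rel E d n c → IsClosedSet E x t c) ∧
    (∀ n m c c', E n m → Rel E d n c → Rel E d m c' → IsSub E c' c) ∧
    (¬ ∃ z, ∀ n c, Rel E d n c → E z c) ∧
    ∀ g, IsSeq E w g → (∀ n o, Rel E g n o → E o t) →
      (∀ n c o, Rel E d n c → Rel E g n o → IsSub E c o) →
        ∃ z, ∀ n o, Rel E g n o → E z o

/-- The set `x` with the topology `t` is a Dowker space: a normal `T₁` space that is not countably
paracompact. -/
structure IsDowkerSpace (x t : M) : Prop where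
  topology : IsTopology E x t
  t1 : IsT1 E x t
  normal : IsNormalSpace E x t
  sequence : HasDowkerSequence E x t

/-- Every point has a countable base of open neighbourhoods. -/
def IsFirstCountable (x t : M) : Prop :=
  ∀ a, E a x → ∃ n, IsCountable E n ∧ (∀ o, E o n → E o t ∧ E a o) ∧
    ∀ o, E o t → E a o → ∃ o', E o' n ∧ IsSub E o' o

/-- Every point has a countable open neighbourhood. -/
def IsLocallyCountable (x t : M) : Prop :=
  ∀ a, E a x → ∃ o, E o t ∧ E a o ∧ IsCountable E o

/-- `x` is the first uncountable ordinal. -/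
def IsOmegaOne (x : M) : Prop := IsOrd E x ∧ ¬ IsCountable E x ∧ ∀ y, E y x → IsCountable E y

/-- The set `s` of subsets of `w` (where `w` is the set of natural numbers) is nowhere dense in the
Cantor space of all subsets of `w`: for each `n` and each `a ⊆ n` there are `m ⊇ n` and `b ⊆ m`
with `b ∩ n = a` such that no `x` in `s` satisfies `x ∩ m = b`. -/
def IsNowhereDense (w s : M) : Prop :=
  (∀ x, E x s → IsSub E x w) ∧
    ∀ n a, E n w → IsSub E a n → ∃ m b, E m w ∧ IsSub E n m ∧ IsSub E b m ∧ IsInter E a b n ∧
      ∀ x, E x s → ¬ IsInter E b x m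

/-- `l` is a Lusin set: an uncountable set of subsets of the set of natural numbers, with a
countable intersection with each nowhere dense set. -/
def IsLusinSet (l : M) : Prop :=
  ∃ w, IsOmega E w ∧ (∀ x, E x l → IsSub E x w) ∧ ¬ IsCountable E l ∧
    ∀ s i, IsNowhereDense E w s → IsInter E i l s → IsCountable E i

end Notions

end Pool.Agent.CR
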