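import Pool.Agent.Lib_helper75.CohenRandom.Normal
import Pool.Agent.Lib_helper75.CohenRandom.Notions
import Pool.Agent.Lib_helper75.BVM.Tools

/-!
The Dowker space in the quotient models.
-/

set_option autoImplicit false

namespace Pool.Agent.CR

open Filter Topology Set MeasureTheory TopologicalSpace Pool.Agent.BVM Pool.Agent.BVM.BSet

section TV

variable {B : Type} [CompleteBooleanAlgebra B] (x y z w : BSet B)

theorem hasTV_isInter : HasTV fun U => IsInter (Emem U) (cls U x) (cls U y) (cls U z) := by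
  unfold IsInter
  exact HasTV.all fun u => (HasTV.mem u x).iff ((HasTV.mem u y).and (HasTV.mem u z))

theorem hasTV_isUnion : HasTV fun U => IsUnion (Emem U) (cls U x) (cls U y) := by
  unfold IsUnion
  exact HasTV.all fun u => (HasTV.mem u x).iff (HasTV.ex fun o => (HasTV.mem o y).and
    (HasTV.mem u o))

theorem hasTV_isDisjoint : HasTV fun U => IsDisjoint (Emem U) (cls U x) (cls U y) := by
  unfold IsDisjoint
  exact HasTV.all fun u => ((HasTV.mem u x).and (HasTV.mem u y)).not

theorem hasTV_isClosedSet :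
    HasTV fun U => IsClosedSet (Emem U) (cls U x) (cls U y) (cls U z) := by
  unfold IsClosedSet
  exact (hasTV_isSub z x).and (HasTV.ex fun o => (HasTV.mem o y).and (hasTV_isDiff o x z))

theorem hasTV_isSeq : HasTV fun U => IsSeq (Emem U) (cls U x) (cls U y) := by
  unfold IsSeq
  exact (HasTV.all fun p => (HasTV.mem p y).imp (HasTV.ex fun n => HasTV.ex fun a =>
    (HasTV.mem n x).and (hasTV_isPair p n a))).and (HasTV.all fun n => (HasTV.mem n x).imp
      (HasTV.existsUnique fun a => hasTV_rel y n a))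

end TV

variable {Z : Type} [MeasurableSpace Z] {μ : Measure Z}
variable {W : Type} [LinearOrder W] [WellFoundedLT W]

section names

variable (μ W) in
/-- The name of the underlying set of the space: the first uncountable ordinal. -/
noncomputable def XN : BSet (CRAlg μ) := oT (CRAlg μ) (W ×ₗ ℕ)

variable (μ) in
/-- The name of a point. -/
noncomputable def ptN (t : W × ℕ) : BSet (CRAlg μ) := vN (CRAlg μ) (toLex t)

/-- The truth values of a subset of the space. -/
noncomputable def chi (u : BSet (CRAlg μ)) (t : W × ℕ) : CRAlg μ := bmem (ptN μ t) u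

/-- The name of the subset of the space with the truth values `a`. -/
noncomputable def setN (a : W × ℕ → CRAlg μ) : BSet (CRAlg μ) :=
  subN fun t : W ×ₗ ℕ => a (ofLex t)

theorem chi_setN (a : W × ℕ → CRAlg μ) (t : W × ℕ) : chi (setN a) t = a t := vN_mem_subN _ _

theorem chi_XN (t : W × ℕ) : chi (XN μ W) t = ⊤ := vN_mem_oT _

theorem setN_sub (a : W × ℕ → CRAlg μ) : bsub (setN a) (XN μ W) = ⊤ := subN_sub _

theorem bsub_setN (a : W × ℕ → CRAlg μ) (u : BSet (CRAlg μ)) :
    bsub (setN a) u = ⨅ t, a t ⇨ chi u t := by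
  show (⨅ t : W ×ₗ ℕ, a (ofLex t) ⇨ bmem (vN (CRAlg μ) t) u) = _
  refine le_antisymm (le_iInf fun t => ?_) (le_iInf fun t => ?_)
  · exact iInf_le (fun t : W ×ₗ ℕ => a (ofLex t) ⇨ bmem (vN (CRAlg μ) t) u) (toLex t)
  · exact iInf_le (fun t : W × ℕ => a t ⇨ chi u t) (ofLex t)

theorem bsub_self' (u : BSet (CRAlg μ)) : bsub u u = ⊤ := by
  rw [bsub_eq]
  simp

theorem forall_pt {U : UF (CRAlg μ)} {P : ∀ V : UF (CRAlg μ), Mod V → Prop}
    (hP : ∀ x : BSet (CRAlg μ), HasTV fun V => P V (cls V x)) {b : CRAlg μ} (hb : b ∈ U)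
    (h : ∀ (t : W × ℕ) (V : UF (CRAlg μ)), b ∈ V → P V (cls V (ptN μ t))) (x : Mod U)
    (hx : Emem U x (cls U (XN μ W))) : P U x :=
  forall_mem_oT hP hb (fun t V hV => h (ofLex t) V hV) x hx

/-- The name of the topology. -/
noncomputable def tauN (L : Lad W) : BSet (CRAlg μ) :=
  famN fun a : W ×ₗ ℕ → CRAlg μ => Op L (fun t => a (toLex t))

omit [WellFoundedLT W] in
theorem inf_inn_le (L : Lad W) (c : CRAlg μ) (h : W × ℕ → CRAlg μ) (x : W × ℕ) :
    c ⊓ inn L h x ≤ inn L (fun t => c ⊓ h t) x := by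
  unfold inn
  rw [inf_iSup_eq]
  refine iSup_mono fun j => le_iInf fun t => ?_
  rw [le_himp_iff]
  refine le_inf (inf_le_left.trans inf_le_left) ?_
  exact le_trans (inf_le_inf_right _ (inf_le_right.trans (iInf_le _ t))) himp_inf_le

omit [WellFoundedLT W] in
theorem Op_congr (L : Lad W) (b : CRAlg μ) (h h' : W × ℕ → CRAlg μ) (h1 : ∀ t, b ⊓ h t ≤ h' t)
    (h2 : ∀ t, b ⊓ h' t ≤ h t) : b ⊓ Op L h ≤ Op L h' := by
  rw [le_Op_iff]
  intro x
  have h3 : Op L h ⊓ h x ≤ inn L h x := (le_Op_iff L).mp le_rfl x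
  calc b ⊓ Op L h ⊓ h' x ≤ b ⊓ (Op L h ⊓ h x) :=
        le_inf (inf_le_left.trans inf_le_left) (le_inf (inf_le_left.trans inf_le_right)
          (le_trans (inf_le_inf_right _ inf_le_left) (h2 x)))
    _ ≤ b ⊓ inn L h x := inf_le_inf_left _ h3
    _ ≤ inn L (fun t => b ⊓ h t) x := inf_inn_le L b h x
    _ ≤ inn L h' x := inn_mono L h1 x

theorem bmem_tauN (L : Lad W) (u : BSet (CRAlg μ)) :
    bmem u (tauN L) = bsub u (XN μ W) ⊓ Op L (chi u) := by
  unfold tauN
  rw [bmem_famN]
  · rfl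
  · intro b a a' h1 h2
    exact Op_congr L b _ _ (fun t => h1 _) (fun t => h2 _)

theorem mem_tauN_iff {L : Lad W} {U : UF (CRAlg μ)} {u : BSet (CRAlg μ)} :
    Emem U (cls U u) (cls U (tauN L)) ↔ bsub u (XN μ W) ∈ U ∧ Op L (chi u) ∈ U := by
  rw [Emem_cls, bmem_tauN, U.inf_mem_iff]

omit [WellFoundedLT W] in
theorem Op_top (L : Lad W) : Op L (fun _ => (⊤ : CRAlg μ)) = ⊤ := by
  refine top_unique ((le_Op_iff L).mpr fun x => ?_)
  exact le_top.trans (inn_const L ⊤ x)

end names

/-! ### The topology -/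

theorem isTopology (hW : ∀ w : W, Countable {v : W // v < w}) (L : Lad W) (U : UF (CRAlg μ)) :
    IsTopology (Emem U) (cls U (XN μ W)) (cls U (tauN L)) where
  sub := by
    intro o ho
    obtain ⟨o, rfl⟩ := cls_surj U o
    exact isSub_iff.mpr (mem_tauN_iff.mp ho).1
  whole := by
    rw [mem_tauN_iff]
    refine ⟨by rw [bsub_self']; exact U.top_mem, ?_⟩
    have : (chi (XN μ W) : W × ℕ → CRAlg μ) = fun _ => ⊤ := funext chi_XN
    rw [this, Op_top]
    exact U.top_mem
  inter := by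
    intro o o' i ho ho' hi
    obtain ⟨o, rfl⟩ := cls_surj U o
    obtain ⟨o', rfl⟩ := cls_surj U o'
    obtain ⟨i, rfl⟩ := cls_surj U i
    obtain ⟨r, hr⟩ := hasTV_isInter i o o'
    beta_reduce at hr
    rw [mem_tauN_iff] at ho ho' ⊢
    have hi' := hi
    rw [hr] at hi
    refine ⟨?_, ?_⟩
    · rw [← isSub_iff]
      intro z hz
      exact isSub_iff.mpr ho.1 z ((hi' z).mp hz).1
    · refine U.mono (U.inf_mem hi (U.inf_mem ho.2 ho'.2)) ?_
      rw [le_Op_iff]
      intro x
      have h1 : r ⊓ chi i x ≤ chi o x ⊓ chi o' x := by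
        refine UF.le_of_forall fun V hV => ?_
        rw [V.inf_mem_iff, ← hr] at hV
        rw [V.inf_mem_iff]
        exact (hV.1 (cls V (ptN μ x))).mp hV.2
      have h2 : ∀ t : W × ℕ, r ⊓ (chi o t ⊓ chi o' t) ≤ chi i t := by
        intro t
        refine UF.le_of_forall fun V hV => ?_
        rw [V.inf_mem_iff, V.inf_mem_iff, ← hr] at hV
        exact (hV.1 (cls V (ptN μ t))).mpr hV.2
      have h3 : Op L (chi o) ⊓ chi o x ≤ inn L (chi o) x := (le_Op_iff L).mp le_rfl x
      have h4 : Op L (chi o') ⊓ chi o' x ≤ inn L (chi o') x := (le_Op_iff L).mp le_rfl x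
      have h5 : r ⊓ (Op L (chi o) ⊓ Op L (chi o')) ⊓ chi i x ≤
          r ⊓ (inn L (chi o) x ⊓ inn L (chi o') x) := by
        have h6 : r ⊓ (Op L (chi o) ⊓ Op L (chi o')) ⊓ chi i x ≤ chi o x ⊓ chi o' x :=
          le_trans (inf_le_inf_right _ inf_le_left) h1
        refine le_inf (inf_le_left.trans inf_le_left) (le_inf ?_ ?_)
        · exact le_trans (le_inf (inf_le_left.trans (inf_le_right.trans inf_le_left))
            (h6.trans inf_le_left)) h3
        · exact le_trans (le_inf (inf_le_left.trans (inf_le_right.trans inf_le_right))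
            (h6.trans inf_le_right)) h4
      refine h5.trans ((inf_le_inf_left r (inn_inf L hW _ _ x)).trans ?_)
      exact (inf_inn_le L r _ x).trans (inn_mono L h2 x)
  union := by
    intro d s hd hs
    obtain ⟨d, rfl⟩ := cls_surj U d
    obtain ⟨s, rfl⟩ := cls_surj U s
    obtain ⟨r, hr⟩ := hasTV_isUnion s d
    beta_reduce at hr
    have hs' := hs
    rw [hr] at hs
    have hd' := hd
    rw [isSub_iff] at hd
    rw [mem_tauN_iff]
    refine ⟨?_, ?_⟩
    · rw [← isSub_iff]
      intro z hz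
      obtain ⟨o, ho, hz⟩ := (hs' z).mp hz
      obtain ⟨o, rfl⟩ := cls_surj U o
      exact isSub_iff.mpr (mem_tauN_iff.mp (hd' _ ho)).1 z hz
    · refine U.mono (U.inf_mem hs hd) ?_
      rw [le_Op_iff]
      intro x
      have h1 : r ⊓ chi s x ≤ ⨆ o, bmem o d ⊓ chi o x := by
        refine UF.le_of_forall fun V hV => ?_
        rw [V.inf_mem_iff, ← hr] at hV
        obtain ⟨o, ho, hx⟩ := (hV.1 (cls V (ptN μ x))).mp hV.2
        obtain ⟨o, rfl⟩ := cls_surj V o
        exact V.mono (V.inf_mem ho hx) (le_iSup (fun o => bmem o d ⊓ chi o x) o)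
      have h2 : ∀ (o : BSet (CRAlg μ)) (t : W × ℕ), r ⊓ bmem o d ⊓ chi o t ≤ chi s t := by
        intro o t
        refine UF.le_of_forall fun V hV => ?_
        rw [V.inf_mem_iff, V.inf_mem_iff, ← hr] at hV
        exact (hV.1.1 (cls V (ptN μ t))).mpr ⟨cls V o, hV.1.2, hV.2⟩
      have h3 : ∀ o, bsub d (tauN L) ⊓ bmem o d ≤ Op L (chi o) := by
        intro o
        rw [bsub_eq]
        refine (inf_le_inf_right _ (iInf_le _ o)).trans (himp_inf_le.trans ?_)
        rw [bmem_tauN]
        exact inf_le_right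
      have h4 : r ⊓ bsub d (tauN L) ⊓ chi s x ≤ (r ⊓ bsub d (tauN L)) ⊓
          ⨆ o, bmem o d ⊓ chi o x :=
        le_inf inf_le_left (le_trans (inf_le_inf_right _ inf_le_left) h1)
      refine h4.trans ?_
      rw [inf_iSup_eq]
      refine iSup_le fun o => ?_
      calc (r ⊓ bsub d (tauN L)) ⊓ (bmem o d ⊓ chi o x)
          ≤ (r ⊓ bmem o d) ⊓ (Op L (chi o) ⊓ chi o x) :=
            le_inf (le_inf (inf_le_left.trans inf_le_left) (inf_le_right.trans inf_le_left))
              (le_inf (le_trans (inf_le_inf inf_le_right inf_le_left) (h3 o))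
                (inf_le_right.trans inf_le_right))
        _ ≤ (r ⊓ bmem o d) ⊓ inn L (chi o) x := inf_le_inf_left _ ((le_Op_iff L).mp le_rfl x)
        _ ≤ inn L (fun t => r ⊓ bmem o d ⊓ chi o t) x := inf_inn_le L _ _ x
        _ ≤ inn L (chi s) x := inn_mono L (h2 o) x

theorem isClosedSet_iff {L : Lad W} {U : UF (CRAlg μ)} {c : BSet (CRAlg μ)} :
    IsClosedSet (Emem U) (cls U (XN μ W)) (cls U (tauN L)) (cls U c) ↔
      bsub c (XN μ W) ∈ U ∧ Op L (fun t => (chi c t)ᶜ) ∈ U := by
  constructor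
  · rintro ⟨h1, o, ho, hd⟩
    refine ⟨isSub_iff.mp h1, ?_⟩
    obtain ⟨o, rfl⟩ := cls_surj U o
    obtain ⟨r, hr⟩ := hasTV_isDiff o (XN μ W) c
    beta_reduce at hr
    rw [hr] at hd
    refine U.mono (U.inf_mem hd (mem_tauN_iff.mp ho).2) (Op_congr L r _ _ (fun t => ?_)
      (fun t => ?_))
    · refine UF.le_of_forall fun V hV => ?_
      rw [V.inf_mem_iff, ← hr] at hV
      rw [V.compl_mem_iff]
      exact ((hV.1 (cls V (ptN μ t))).mp hV.2).2
    · refine UF.le_of_forall fun V hV => ?_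
      rw [V.inf_mem_iff, ← hr, V.compl_mem_iff] at hV
      refine (hV.1 (cls V (ptN μ t))).mpr ⟨?_, hV.2⟩
      have := chi_XN (μ := μ) t
      rw [Emem_cls]
      unfold chi at this
      rw [this]
      exact V.top_mem
  · rintro ⟨h1, h2⟩
    refine ⟨isSub_iff.mpr h1, cls U (setN fun t : W × ℕ => (chi c t)ᶜ), ?_, ?_⟩
    · rw [mem_tauN_iff]
      refine ⟨by rw [setN_sub]; exact U.top_mem, ?_⟩
      have : (chi (setN fun t : W × ℕ => (chi c t)ᶜ) : W × ℕ → CRAlg μ) =
          fun t => (chi c t)ᶜ := funext fun t => chi_setN _ t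
      rw [this]
      exact h2
    · intro z
      constructor
      · intro hz
        have hzX : Emem U z (cls U (XN μ W)) :=
          isSub_iff.mpr (by rw [setN_sub]; exact U.top_mem) z hz
        refine ⟨hzX, ?_⟩
        refine forall_pt (P := fun V z => Emem V z (cls V (setN fun t : W × ℕ => (chi c t)ᶜ)) →
          ¬ Emem V z (cls V c)) (fun x => (HasTV.mem _ _).imp (HasTV.mem _ _).not) U.top_mem
          (fun t V _ h => ?_) z hzX hz
        rw [Emem_cls] at h ⊢
        have h3 := chi_setN (fun t : W × ℕ => (chi c t)ᶜ) t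
        unfold chi at h3 h
        rw [h3, V.compl_mem_iff] at h
        exact h
      · rintro ⟨hzX, hz⟩
        refine forall_pt (P := fun V z => ¬ Emem V z (cls V c) →
          Emem V z (cls V (setN fun t : W × ℕ => (chi c t)ᶜ)))
          (fun x => (HasTV.mem _ _).not.imp (HasTV.mem _ _)) U.top_mem (fun t V _ h => ?_) z
          hzX hz
        rw [Emem_cls] at h ⊢
        have h3 := chi_setN (fun t : W × ℕ => (chi c t)ᶜ) t
        unfold chi at h3 ⊢
        rw [h3, V.compl_mem_iff]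
        exact h

end Pool.Agent.CR
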