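import Pool.Agent.Lib_helper75.CohenRandom.Dowker

/-!
The Dowker space in the quotient models: the proofs of its properties.
-/

set_option autoImplicit false

namespace Pool.Agent.CR

open Filter Topology Set MeasureTheory TopologicalSpace Pool.Agent.BVM Pool.Agent.BVM.BSet

variable {Z : Type} [MeasurableSpace Z] {μ : Measure Z}
variable {W : Type} [LinearOrder W] [WellFoundedLT W]

theorem mem_setN_iff {V : UF (CRAlg μ)} {a : W × ℕ → CRAlg μ} {t : W × ℕ} :
    Emem V (cls V (ptN μ t)) (cls V (setN a)) ↔ a t ∈ V := by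
  rw [Emem_cls]
  have h := chi_setN a t
  unfold chi at h
  rw [h]

theorem mem_XN {V : UF (CRAlg μ)} (t : W × ℕ) :
    Emem V (cls V (ptN μ t)) (cls V (XN μ W)) := by
  have h := chi_XN (μ := μ) t
  unfold chi at h
  rw [Emem_cls, h]
  exact V.top_mem

theorem mem_XN_of_setN {V : UF (CRAlg μ)} {a : W × ℕ → CRAlg μ} {z : Mod V}
    (hz : Emem V z (cls V (setN a))) : Emem V z (cls V (XN μ W)) :=
  isSub_iff.mpr (by rw [setN_sub]; exact V.top_mem) z hz

theorem setN_mem_tauN {L : Lad W} {V : UF (CRAlg μ)} {a : W × ℕ → CRAlg μ} :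
    Emem V (cls V (setN a)) (cls V (tauN L)) ↔ Op L a ∈ V := by
  rw [mem_tauN_iff, setN_sub]
  have : (chi (setN a) : W × ℕ → CRAlg μ) = a := funext fun t => chi_setN a t
  rw [this]
  exact ⟨fun h => h.2, fun h => ⟨V.top_mem, h⟩⟩

open Classical in
/-- The truth values of a set of the ground model. -/
noncomputable def ind (S : Set (W × ℕ)) (x : W × ℕ) : CRAlg μ := if x ∈ S then ⊤ else ⊥

omit [LinearOrder W] [WellFoundedLT W] in
theorem ind_pos {S : Set (W × ℕ)} {x : W × ℕ} (h : x ∈ S) : (ind S x : CRAlg μ) = ⊤ := if_pos h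

omit [LinearOrder W] [WellFoundedLT W] in
theorem ind_neg {S : Set (W × ℕ)} {x : W × ℕ} (h : x ∉ S) : (ind S x : CRAlg μ) = ⊥ := if_neg h

open Classical in
omit [WellFoundedLT W] in
/-- A set of the ground model that is open for all `y`. -/
theorem Op_ground (hW : ∀ w : W, Countable {v : W // v < w}) (L : Lad W) (S : Set (W × ℕ))
    (h : ∀ y, ∀ x ∈ S, ∃ j, Nb L y x.2 x.1 j ⊆ S) :
    Op L (ind S : W × ℕ → CRAlg μ) = ⊤ := by
  refine top_unique ((le_Op_iff L).mpr fun x => ?_)
  by_cases hx : x ∈ S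
  · have h1 : (phi univ : CRAlg μ) ≤ inn L (fun t => phi (if t ∈ S then univ else ∅)) x := by
      refine phi_le_inn L hW MeasurableSet.univ (fun t => ?_) x fun ω _ => ?_
      · by_cases ht : t ∈ S
        · rw [if_pos ht]; exact MeasurableSet.univ
        · rw [if_neg ht]; exact MeasurableSet.empty
      · obtain ⟨j, hj⟩ := h ω.1 x hx
        refine ⟨j, fun t ht => ?_⟩
        rw [if_pos (hj ht)]
        trivial
    rw [phi_univ] at h1
    refine (le_top.trans h1).trans (inn_mono L (fun t => ?_) x)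
    by_cases ht : t ∈ S
    · rw [if_pos ht, ind_pos ht]; exact le_top
    · rw [if_neg ht, ind_neg ht, phi_empty]
  · rw [ind_neg hx]
    exact inf_le_right.trans bot_le

theorem isT1 (hW : ∀ w : W, Countable {v : W // v < w}) (L : Lad W) (U : UF (CRAlg μ)) :
    IsT1 (Emem U) (cls U (XN μ W)) (cls U (tauN L)) := by
  classical
  intro a b ha hb hab
  have hTV : ∀ a b : BSet (CRAlg μ), HasTV fun V => cls V a ≠ cls V b →
      ∃ o, Emem V o (cls V (tauN L)) ∧ Emem V (cls V a) o ∧ ¬ Emem V (cls V b) o := fun a b =>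
    (HasTV.eq a b).not.imp (HasTV.ex fun o => (HasTV.mem _ _).and ((HasTV.mem _ _).and
      (HasTV.mem _ _).not))
  refine forall_pt (P := fun V a => ∀ b, Emem V b (cls V (XN μ W)) → a ≠ b →
    ∃ o, Emem V o (cls V (tauN L)) ∧ Emem V a o ∧ ¬ Emem V b o)
    (fun a => HasTV.all fun b => (HasTV.mem _ _).imp (hTV a b)) U.top_mem
    (fun t V _ b hb hab => ?_) a ha b hb hab
  refine forall_pt (P := fun V b => cls V (ptN μ t) ≠ b →
    ∃ o, Emem V o (cls V (tauN L)) ∧ Emem V (cls V (ptN μ t)) o ∧ ¬ Emem V b o)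
    (fun b => hTV _ b) V.top_mem (fun s V' _ hts => ?_) b hb hab
  have hst : s ≠ t := fun h => hts (by rw [h])
  refine ⟨cls V' (setN (ind ({s}ᶜ : Set (W × ℕ)) : W × ℕ → CRAlg μ)), ?_, ?_, ?_⟩
  · rw [setN_mem_tauN, Op_ground hW L]
    · exact V'.top_mem
    · intro y x hx
      obtain ⟨j, hj⟩ := Nb_sep (L := L) (y := y) (t := x) (p := s) (fun h => hx h.symm)
      exact ⟨j, fun z hz hzs => hj (by rwa [mem_singleton_iff.mp hzs] at hz)⟩
  · rw [mem_setN_iff, ind_pos (by simpa using hst.symm)]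
    exact V'.top_mem
  · rw [mem_setN_iff, ind_neg (by simp)]
    exact V'.bot_notMem

theorem isNormalSpace [IsProbabilityMeasure μ] [Uncountable W]
    (hW : ∀ w : W, Countable {v : W // v < w}) (L : Lad W) (U : UF (CRAlg μ)) :
    IsNormalSpace (Emem U) (cls U (XN μ W)) (cls U (tauN L)) := by
  intro c d hc hd hcd
  obtain ⟨c, rfl⟩ := cls_surj U c
  obtain ⟨d, rfl⟩ := cls_surj U d
  rw [isClosedSet_iff] at hc hd
  obtain ⟨r, hr⟩ := hasTV_isDisjoint c d
  beta_reduce at hr
  rw [hr] at hcd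
  set p : CRAlg μ := r ⊓ (Op L (fun t => (chi c t)ᶜ) ⊓ Op L (fun t => (chi d t)ᶜ)) with hp
  have hpU : p ∈ U := U.inf_mem hcd (U.inf_mem hc.2 hd.2)
  obtain ⟨g, g', h1, h2, h3, h4, h5⟩ := normal hW L p (chi c) (chi d)
    (inf_le_right.trans inf_le_left) (inf_le_right.trans inf_le_right) (fun t => by
      rw [← le_bot_iff]
      refine UF.le_of_forall fun V hV => ?_
      rw [V.inf_mem_iff, V.inf_mem_iff, hp, V.inf_mem_iff, ← hr] at hV
      exact absurd ⟨hV.1.2, hV.2⟩ (hV.1.1.1 (cls V (ptN μ t))))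
  refine ⟨cls U (setN g), cls U (setN g'), ?_, ?_, ?_, ?_, ?_⟩
  · rw [setN_mem_tauN]
    exact U.mono hpU h1
  · rw [setN_mem_tauN]
    exact U.mono hpU h2
  · intro z hz
    refine forall_pt (P := fun V z => Emem V z (cls V c) → Emem V z (cls V (setN g)))
      (fun x => (HasTV.mem _ _).imp (HasTV.mem _ _)) hpU (fun t V hV h => ?_) z
      (isSub_iff.mpr hc.1 z hz) hz
    rw [mem_setN_iff]
    exact V.mono (V.inf_mem hV h) (h3 t)
  · intro z hz
    refine forall_pt (P := fun V z => Emem V z (cls V d) → Emem V z (cls V (setN g')))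
      (fun x => (HasTV.mem _ _).imp (HasTV.mem _ _)) hpU (fun t V hV h => ?_) z
      (isSub_iff.mpr hd.1 z hz) hz
    rw [mem_setN_iff]
    exact V.mono (V.inf_mem hV h) (h4 t)
  · rintro z ⟨hz, hz'⟩
    refine forall_pt (P := fun V z => Emem V z (cls V (setN g)) → ¬ Emem V z (cls V (setN g')))
      (fun x => (HasTV.mem _ _).imp (HasTV.mem _ _).not) hpU (fun t V hV h h' => ?_) z
      (mem_XN_of_setN hz) hz hz'
    rw [mem_setN_iff] at h h'
    have h6 := V.inf_mem (V.inf_mem hV h) h'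
    rw [h5 t] at h6
    exact V.bot_notMem h6

theorem isLocallyCountable (hW : ∀ w : W, Countable {v : W // v < w}) (L : Lad W)
    (U : UF (CRAlg μ)) : IsLocallyCountable (Emem U) (cls U (XN μ W)) (cls U (tauN L)) := by
  classical
  intro a ha
  refine forall_pt (P := fun V a => ∃ o, Emem V o (cls V (tauN L)) ∧ Emem V a o ∧
    IsCountable (Emem V) o) (fun a => HasTV.ex fun o => (HasTV.mem _ _).and ((HasTV.mem _ _).and
      (hasTV_isCountable _))) U.top_mem (fun t V _ => ?_) a ha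
  have hc1 : Countable {v : W // v ≤ t.1} := by
    have h3 : (Iio t.1).Countable := Set.countable_coe_iff.mp (hW t.1)
    have h4 : (Iic t.1).Countable := by
      rw [← Iio_insert]
      exact h3.insert t.1
    exact h4.to_subtype
  refine ⟨cls V (setN (ind {x : W × ℕ | x.1 ≤ t.1} : W × ℕ → CRAlg μ)), ?_, ?_, ?_⟩
  · rw [setN_mem_tauN, Op_ground hW L]
    · exact V.top_mem
    · intro y x hx
      exact ⟨0, fun z hz => (Nb_pos_le hz).trans hx⟩
  · rw [mem_setN_iff, ind_pos (by simp)]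
    exact V.top_mem
  · refine isCountable_of_cover (K := {v : W // v ≤ t.1} × ℕ)
      (fun k => ptN μ (k.1.1, k.2)) V.top_mem _ (fun z => ?_)
    rw [top_inf_eq]
    unfold setN
    rw [bmem_subN]
    refine iSup_le fun x => ?_
    by_cases hx : (ofLex x).1 ≤ t.1
    · exact le_iSup_of_le ((⟨(ofLex x).1, hx⟩, (ofLex x).2) : {v : W // v ≤ t.1} × ℕ)
        inf_le_right
    · have h5 : ¬ (ofLex x ∈ {x : W × ℕ | x.1 ≤ t.1}) := hx
      rw [ind_neg h5, bot_inf_eq]
      exact bot_le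

theorem isFirstCountable (hW : ∀ w : W, Countable {v : W // v < w}) (L : Lad W)
    (U : UF (CRAlg μ)) : IsFirstCountable (Emem U) (cls U (XN μ W)) (cls U (tauN L)) := by
  intro a ha
  refine forall_pt (P := fun V a => ∃ n, IsCountable (Emem V) n ∧
    (∀ o, Emem V o n → Emem V o (cls V (tauN L)) ∧ Emem V a o) ∧
    ∀ o, Emem V o (cls V (tauN L)) → Emem V a o → ∃ o', Emem V o' n ∧ IsSub (Emem V) o' o)
    (fun a => HasTV.ex fun n => (hasTV_isCountable n).and ((HasTV.all fun o =>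
      (HasTV.mem _ _).imp ((HasTV.mem _ _).and (HasTV.mem _ _))).and (HasTV.all fun o =>
        (HasTV.mem _ _).imp ((HasTV.mem _ _).imp (HasTV.ex fun o' => (HasTV.mem _ _).and
          (hasTV_isSub _ _)))))) U.top_mem (fun t V _ => ?_) a ha
  let N : BSet (CRAlg μ) := BSet.mk ℕ (fun j => setN (wv μ L t j)) (fun _ => ⊤)
  have hN : ∀ z, bmem z N = ⨆ j : ℕ, beq z (setN (wv μ L t j)) := by
    intro z
    show (⨆ j : ℕ, ⊤ ⊓ beq z (setN (wv μ L t j))) = _
    simp only [top_inf_eq]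
  have hOp : ∀ j, Op L (wv μ L t j) = ⊤ := by
    intro j
    refine top_unique ((le_Op_iff L).mpr fun x => ?_)
    exact inf_le_right.trans (wv_open L hW t j x)
  refine ⟨cls V N, ?_, ?_, ?_⟩
  · refine isCountable_of_cover (K := ℕ) (fun j => setN (wv μ L t j)) V.top_mem _ (fun z => ?_)
    rw [hN]
    exact inf_le_right
  · intro o ho
    obtain ⟨o, rfl⟩ := cls_surj V o
    have hTV : ∀ o : BSet (CRAlg μ), HasTV fun V => Emem V (cls V o) (cls V (tauN L)) ∧
      Emem V (cls V (ptN μ t)) (cls V o) := fun o => (HasTV.mem _ _).and (HasTV.mem _ _)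
    choose χ hχ using hTV
    beta_reduce at hχ
    have hE : Ext χ := HasTV.ext_of (P := fun V o => Emem V o (cls V (tauN L)) ∧
      Emem V (cls V (ptN μ t)) o) hχ
    refine (hχ o V).mpr (V.mono ho ?_)
    rw [hN]
    refine iSup_le fun j => ?_
    have h1 : χ (setN (wv μ L t j)) = ⊤ := by
      refine top_unique (UF.le_of_forall fun V' _ => ?_)
      rw [← hχ, setN_mem_tauN, hOp, mem_setN_iff, wv_top]
      exact ⟨V'.top_mem, V'.top_mem⟩
    have h2 := hE (setN (wv μ L t j)) o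
    rw [h1, inf_top_eq, beq_symm] at h2
    exact h2
  · intro o ho hto
    obtain ⟨o, rfl⟩ := cls_surj V o
    rw [mem_tauN_iff] at ho
    have h1 : Op L (chi o) ⊓ chi o t ≤ ⨆ o', bmem o' N ⊓ bsub o' o := by
      refine ((le_Op_iff L).mp le_rfl t).trans (iSup_le fun j => ?_)
      refine le_iSup_of_le (setN (wv μ L t j)) (le_inf ?_ ?_)
      · rw [hN]
        exact le_trans le_top ((beq_refl (setN (wv μ L t j))).ge.trans
          (le_iSup (fun j' => beq (setN (wv μ L t j)) (setN (wv μ L t j'))) j))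
      · rw [bsub_setN]
    have h2 := V.mono (V.inf_mem ho.2 hto) h1
    have hval : ∀ (o' : BSet (CRAlg μ)) (V : UF (CRAlg μ)), (Emem V (cls V o') (cls V N) ∧
        IsSub (Emem V) (cls V o') (cls V o)) ↔ bmem o' N ⊓ bsub o' o ∈ V := by
      intro o' V
      rw [V.inf_mem_iff, isSub_iff]
      exact Iff.rfl
    have hE : Ext fun o' => bmem o' N ⊓ bsub o' o :=
      HasTV.ext_of (P := fun V o' => Emem V o' (cls V N) ∧
        IsSub (Emem V) o' (cls V o)) hval
    obtain ⟨o', ho'⟩ := (iSup_mem_iff hE).mp h2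
    exact ⟨cls V o', (hval o' V).mpr ho'⟩

end Pool.Agent.CR
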