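import Pool.Agent.Lib_helper75.CohenRandom.Dowker2

/-!
The Dowker space in the quotient models: the sequence of closed sets.
-/

set_option autoImplicit false

namespace Pool.Agent.CR

open Filter Topology Set MeasureTheory TopologicalSpace Pool.Agent.BVM Pool.Agent.BVM.BSet

variable {Z : Type} [MeasurableSpace Z] {μ : Measure Z}
variable {W : Type} [LinearOrder W] [WellFoundedLT W]

theorem isPair_inj {U : UF (CRAlg μ)} {p x y x' y' : Mod U} (h : IsPair (Emem U) p x y)
    (h' : IsPair (Emem U) p x' y') : x = x' ∧ y = y' := by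
  obtain ⟨x, rfl⟩ := cls_surj U x
  obtain ⟨y, rfl⟩ := cls_surj U y
  obtain ⟨x', rfl⟩ := cls_surj U x'
  obtain ⟨y', rfl⟩ := cls_surj U y'
  rw [isPair_iff] at h h'
  exact cls_opair_inj (h.symm.trans h')

theorem vN_mem_omega {U : UF (CRAlg μ)} (n : ℕ) :
    Emem U (cls U (vN (CRAlg μ) (ULift.up.{0} n))) (cls U (omega (CRAlg μ))) := by
  rw [Emem_cls]
  unfold omega
  rw [vN_mem_oT]
  exact U.top_mem

/-- The closed set of the points in the layers from `n` on. -/
noncomputable def DN (μ : Measure Z) (W : Type) [LinearOrder W] [WellFoundedLT W] (n : ℕ) :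
    BSet (CRAlg μ) := setN (ind {t : W × ℕ | n ≤ t.2})

theorem isClosedSet_DN (hW : ∀ w : W, Countable {v : W // v < w}) (L : Lad W)
    (U : UF (CRAlg μ)) (n : ℕ) :
    IsClosedSet (Emem U) (cls U (XN μ W)) (cls U (tauN L)) (cls U (DN μ W n)) := by
  rw [isClosedSet_iff]
  unfold DN
  rw [setN_sub]
  refine ⟨U.top_mem, ?_⟩
  have h1 : (fun t : W × ℕ => (chi (setN (ind {t : W × ℕ | n ≤ t.2})) t : CRAlg μ)ᶜ) =
      ind {t : W × ℕ | t.2 < n} := by
    funext t
    rw [chi_setN]
    by_cases ht : n ≤ t.2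
    · rw [ind_pos (S := {t : W × ℕ | n ≤ t.2}) ht,
        ind_neg (S := {t : W × ℕ | t.2 < n}) (not_lt.mpr ht), compl_top]
    · rw [ind_neg (S := {t : W × ℕ | n ≤ t.2}) ht,
        ind_pos (S := {t : W × ℕ | t.2 < n}) (not_le.mp ht), compl_bot]
  rw [h1, Op_ground hW L]
  · exact U.top_mem
  · intro y x hx
    exact ⟨0, fun z hz => lt_of_le_of_lt (Nb_layer_le hz) hx⟩

theorem hasDowkerSequence [IsProbabilityMeasure μ] [Uncountable W]
    (hW : ∀ w : W, Countable {v : W // v < w}) (L : Lad W) (U : UF (CRAlg μ)) :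
    HasDowkerSequence (Emem U) (cls U (XN μ W)) (cls U (tauN L)) := by
  refine ⟨cls U (omega _), cls U (seqN (DN μ W)), isOmega_omega U,
    ⟨pair_of_mem_seqN _, fun n hn => existsUnique_rel_seqN _ n hn⟩, ?_, ?_, ?_, ?_⟩
  · intro n c hnc
    exact forall_rel_seqN (DN μ W) (Q := fun V _ c => IsClosedSet (Emem V) (cls V (XN μ W))
      (cls V (tauN L)) c) (fun _ _ => hasTV_isClosedSet _ _ _) U.top_mem
      (fun n V _ => isClosedSet_DN hW L V n) n c hnc
  · intro n m c c' hnm hnc hmc
    refine forall_rel_seqN (DN μ W) (Q := fun V n c => ∀ m c', Emem V n m →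
      Rel (Emem V) (cls V (seqN (DN μ W))) m c' → IsSub (Emem V) c' c)
      (fun _ _ => HasTV.all fun m => HasTV.all fun c' => (HasTV.mem _ _).imp
        ((hasTV_rel _ _ _).imp (hasTV_isSub _ _))) U.top_mem
      (fun n V _ m c' hnm hmc => ?_) n c hnc m c' hnm hmc
    refine forall_rel_seqN (DN μ W) (Q := fun V m c' =>
      Emem V (cls V (vN (CRAlg μ) (ULift.up.{0} n))) m → IsSub (Emem V) c' (cls V (DN μ W n)))
      (fun _ _ => (HasTV.mem _ _).imp (hasTV_isSub _ _)) V.top_mem
      (fun m V' _ hnm => ?_) m c' hmc hnm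
    by_cases h : n < m
    · rw [isSub_iff]
      unfold DN
      rw [bsub_setN]
      have h2 : (⨅ t : W × ℕ, (ind {t : W × ℕ | m ≤ t.2} t : CRAlg μ) ⇨
          chi (setN (ind {t : W × ℕ | n ≤ t.2})) t) = ⊤ := by
        refine top_unique (le_iInf fun t => ?_)
        rw [chi_setN, le_himp_iff]
        by_cases ht : m ≤ t.2
        · rw [ind_pos (S := {t : W × ℕ | n ≤ t.2}) (h.le.trans ht)]
          exact le_top
        · rw [ind_neg (S := {t : W × ℕ | m ≤ t.2}) ht]
          exact inf_le_right.trans bot_le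
      rw [h2]
      exact V'.top_mem
    · exfalso
      have h3 : bmem (vN (CRAlg μ) (ULift.up.{0} n)) (vN (CRAlg μ) (ULift.up.{0} m)) = ⊥ :=
        vN_mem_of_not_lt (fun h' => h h')
      rw [Emem_cls, h3] at hnm
      exact V'.bot_notMem hnm
  · rintro ⟨z, hz⟩
    have h0 : Emem U z (cls U (DN μ W 0)) :=
      hz (cls U (vN (CRAlg μ) (ULift.up.{0} 0))) _ ((rel_seqN _ _ _).mpr rfl)
    refine forall_pt (P := fun V z => ¬ ∀ n c, Rel (Emem V) (cls V (seqN (DN μ W))) n c →
      Emem V z c) (fun z => (HasTV.all fun n => HasTV.all fun c => (hasTV_rel _ _ _).imp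
        (HasTV.mem _ _)).not) U.top_mem (fun t V _ h => ?_) z (mem_XN_of_setN h0) hz
    have h1 : Emem V (cls V (ptN μ t)) (cls V (DN μ W (t.2 + 1))) :=
      h (cls V (vN (CRAlg μ) (ULift.up.{0} (t.2 + 1)))) _ ((rel_seqN _ _ _).mpr rfl)
    unfold DN at h1
    rw [mem_setN_iff, ind_neg (by simp)] at h1
    exact V.bot_notMem h1
  · intro g hg1 hg2 hg3
    obtain ⟨g, rfl⟩ := cls_surj U g
    obtain ⟨p, hp⟩ : HasTV fun V : UF (CRAlg μ) => IsSeq (Emem V) (cls V (omega _)) (cls V g) ∧
        (∀ n o, Rel (Emem V) (cls V g) n o → Emem V o (cls V (tauN L))) ∧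
        (∀ n c o, Rel (Emem V) (cls V (seqN (DN μ W))) n c → Rel (Emem V) (cls V g) n o →
          IsSub (Emem V) c o) :=
      (hasTV_isSeq _ _).and ((HasTV.all fun n => HasTV.all fun o => (hasTV_rel _ _ _).imp
        (HasTV.mem _ _)).and (HasTV.all fun n => HasTV.all fun c => HasTV.all fun o =>
          (hasTV_rel _ _ _).imp ((hasTV_rel _ _ _).imp (hasTV_isSub _ _))))
    beta_reduce at hp
    have hpU : p ∈ U := (hp U).mp ⟨hg1, hg2, hg3⟩
    have hwit : ∀ n : ℕ, ∃ o : BSet (CRAlg μ), ∀ V : UF (CRAlg μ),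
        (∃ o', Rel (Emem V) (cls V g) (cls V (vN (CRAlg μ) (ULift.up.{0} n))) o') →
          Rel (Emem V) (cls V g) (cls V (vN (CRAlg μ) (ULift.up.{0} n))) (cls V o) := fun n =>
      HasTV.exists_witness (P := fun V o =>
        Rel (Emem V) (cls V g) (cls V (vN (CRAlg μ) (ULift.up.{0} n))) o)
        (fun o => hasTV_rel _ _ _)
    choose o ho using hwit
    have ho' : ∀ n (V : UF (CRAlg μ)), p ∈ V →
        Rel (Emem V) (cls V g) (cls V (vN (CRAlg μ) (ULift.up.{0} n))) (cls V (o n)) := by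
      intro n V hV
      obtain ⟨h1, -, -⟩ := (hp V).mpr hV
      exact ho n V (h1.2 _ (vN_mem_omega n)).exists
    have hOp : ∀ n, p ≤ Op L (chi (o n) : W × ℕ → CRAlg μ) := by
      intro n
      refine UF.le_of_forall fun V hV => ?_
      obtain ⟨-, h2, -⟩ := (hp V).mpr hV
      exact (mem_tauN_iff.mp (h2 _ _ (ho' n V hV))).2
    have hlay : ∀ n (t : W × ℕ), n ≤ t.2 → p ≤ chi (o n) t := by
      intro n t ht
      refine UF.le_of_forall fun V hV => ?_
      obtain ⟨-, -, h3⟩ := (hp V).mpr hV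
      refine h3 _ _ _ ((rel_seqN (DN μ W) n _).mpr rfl) (ho' n V hV) (cls V (ptN μ t)) ?_
      unfold DN
      rw [mem_setN_iff, ind_pos ht]
      exact V.top_mem
    have hb : ∀ n, ∃ δ₀ : W, ∀ t : W × ℕ, δ₀ < t.1 → p ⊓ (chi (o n) t)ᶜ = ⊥ := by
      intro n
      refine bounded_closed hW L p (fun t => (chi (o n) t)ᶜ) ?_ n (fun t ht => ?_)
      · simp only [compl_compl]
        exact hOp n
      · rw [← le_bot_iff]
        refine le_trans (inf_le_inf_right _ (hlay n t ht)) ?_
        simp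
    choose δ hδ using hb
    obtain ⟨w, hw⟩ := bounded_of_countable hW (Set.countable_range δ)
    refine ⟨cls U (ptN μ (w, 0)), fun n x hnx => ?_⟩
    have hn : Emem U n (cls U (omega _)) := by
      obtain ⟨q, hq1, hq2⟩ := hnx
      obtain ⟨n', a, hn', hq3⟩ := hg1.1 q hq2
      rw [(isPair_inj hq1 hq3).1]
      exact hn'
    refine forall_mem_omega (P := fun V n => ∀ x, Rel (Emem V) (cls V g) n x →
      Emem V (cls V (ptN μ (w, 0))) x) (fun n => HasTV.all fun x => (hasTV_rel _ _ _).imp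
        (HasTV.mem _ _)) hpU (fun n V hV x hx => ?_) n hn x hnx
    obtain ⟨h1, -, -⟩ := (hp V).mpr hV
    have h4 : x = cls V (o n) := (h1.2 _ (vN_mem_omega n)).unique hx (ho' n V hV)
    rw [h4]
    have h5 : p ≤ chi (o n) (w, 0) := by
      rw [← disjoint_compl_right_iff, disjoint_iff]
      exact hδ n (w, 0) (hw _ (mem_range_self n))
    exact V.mono hV h5

theorem isDowkerSpace [IsProbabilityMeasure μ] [Uncountable W]
    (hW : ∀ w : W, Countable {v : W // v < w}) (L : Lad W) (U : UF (CRAlg μ)) :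
    IsDowkerSpace (Emem U) (cls U (XN μ W)) (cls U (tauN L)) where
  topology := isTopology hW L U
  t1 := isT1 hW L U
  normal := isNormalSpace hW L U
  sequence := hasDowkerSequence hW L U

theorem isOmegaOne [IsProbabilityMeasure μ] [Uncountable W]
    (hW : ∀ w : W, Countable {v : W // v < w}) (U : UF (CRAlg μ)) :
    IsOmegaOne (Emem U) (cls U (XN μ W)) := by
  have h1 : Uncountable (W ×ₗ ℕ) := by
    have : Function.Injective (fun w : W => (toLex (w, 0) : W ×ₗ ℕ)) := by
      intro w w' h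
      have := congrArg (fun x : W ×ₗ ℕ => (ofLex x).1) h
      exact this
    exact this.uncountable
  have h2 : ∀ w : W ×ₗ ℕ, Countable {v : W ×ₗ ℕ // v < w} := by
    intro w
    have hc1 : Countable {v : W // v ≤ (ofLex w).1} := by
      have h3 : (Iio (ofLex w).1).Countable := Set.countable_coe_iff.mp (hW _)
      have h4 : (Iic (ofLex w).1).Countable := by
        rw [← Iio_insert]
        exact h3.insert _
      exact h4.to_subtype
    have h5 : ∀ v : {v : W ×ₗ ℕ // v < w}, (ofLex v.1).1 ≤ (ofLex w).1 := by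
      intro v
      rcases Prod.Lex.lt_iff.mp v.2 with h | h
      · exact h.le
      · exact h.1.le
    have : Function.Injective (fun v : {v : W ×ₗ ℕ // v < w} =>
        (((⟨(ofLex v.1).1, h5 v⟩ : {v : W // v ≤ (ofLex w).1})), (ofLex v.1).2)) := by
      intro v v' h
      simp only [Prod.mk.injEq, Subtype.mk.injEq] at h
      refine Subtype.ext ?_
      exact ofLex.injective (Prod.ext h.1 h.2)
    exact this.countable
  exact ⟨isOrd_oT U, ccc.not_isCountable_oT U, fun y hy => isCountable_of_mem_oT h2 U y hy⟩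

end Pool.Agent.CR
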