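import Pool.Agent.Lib_helper75.CohenRandom.Category

/-!
The product of the ideal of the meager sets and the ideal of the null sets.
-/

set_option autoImplicit false

namespace Pool.Agent.CR

open Filter Topology Set MeasureTheory

variable {Z : Type} [MeasurableSpace Z]

/-- The section of a set in the product of the Baire space and `Z`. -/
def sec (A : Set (Y × Z)) (y : Y) : Set Z := {z | (y, z) ∈ A}

omit [MeasurableSpace Z] in
theorem mem_sec {A : Set (Y × Z)} {y : Y} {z : Z} : z ∈ sec A y ↔ (y, z) ∈ A := Iff.rfl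

variable (μ : Measure Z)

/-- The sections of `A` are null, except for a meager set of sections. -/
def Neg (A : Set (Y × Z)) : Prop := ∀ᶠ y in residual Y, μ (sec A y) = 0

variable {μ}

theorem Neg.mono {A A' : Set (Y × Z)} (h : Neg μ A) (hs : A' ⊆ A) : Neg μ A' := by
  filter_upwards [h] with y hy
  exact measure_mono_null (fun z hz => hs hz) hy

theorem neg_empty : Neg μ (∅ : Set (Y × Z)) := by
  refine Eventually.of_forall fun y => ?_
  have : sec (∅ : Set (Y × Z)) y = ∅ := rfl
  rw [this, measure_empty]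

theorem Neg.iUnion {ι : Type*} [Countable ι] {A : ι → Set (Y × Z)} (h : ∀ i, Neg μ (A i)) :
    Neg μ (⋃ i, A i) := by
  have h1 : ∀ᶠ y in residual Y, ∀ i, μ (sec (A i) y) = 0 := eventually_countable_forall.mpr h
  filter_upwards [h1] with y hy
  have : sec (⋃ i, A i) y = ⋃ i, sec (A i) y := by
    ext z; simp [mem_sec]
  rw [this]
  exact measure_iUnion_null hy

theorem Neg.union {A A' : Set (Y × Z)} (h : Neg μ A) (h' : Neg μ A') : Neg μ (A ∪ A') := by
  filter_upwards [h, h'] with y hy hy'
  have : sec (A ∪ A') y = sec A y ∪ sec A' y := rfl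
  rw [this]
  exact measure_union_null hy hy'

theorem Neg.of_forall {A : Set (Y × Z)} (h : ∀ y, μ (sec A y) = 0) : Neg μ A :=
  Eventually.of_forall h

variable [IsProbabilityMeasure μ]

theorem measurable_sec {A : Set (Y × Z)} (hA : MeasurableSet A) :
    Measurable fun y => μ (sec A y) := measurable_measure_prodMk_left hA

omit [IsProbabilityMeasure μ] in
theorem exists_cyl_of_not {G : Set Y} (hG : MeasurableSet G) (h : ¬ ∀ᶠ y in residual Y, y ∉ G) :
    ∃ s, ∀ᶠ y in residual Y, y ∈ cyl s → y ∈ G := by
  obtain ⟨O, hO, hGO⟩ := hG.residualEq_isOpen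
  have h1 : O.Nonempty := by
    by_contra hcon
    rw [not_nonempty_iff_eq_empty] at hcon
    apply h
    filter_upwards [hGO.mem_iff] with y hy hy'
    have := hy.mp hy'
    rw [hcon] at this
    exact this
  obtain ⟨y, hy⟩ := h1
  obtain ⟨k, -, hk⟩ := exists_res_subset hO hy 0
  refine ⟨res y k, ?_⟩
  filter_upwards [hGO.mem_iff] with z hz hz'
  exact hz.mpr (hk hz')

/-- The positive rational number with index `m`. -/
noncomputable def eps (m : ℕ) : ENNReal := ((m : ENNReal) + 1)⁻¹

theorem eps_pos (m : ℕ) : 0 < eps m := by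
  unfold eps
  rw [ENNReal.inv_pos]
  exact ENNReal.add_ne_top.mpr ⟨ENNReal.natCast_ne_top m, ENNReal.one_ne_top⟩

theorem exists_eps_lt {a : ENNReal} (ha : a ≠ 0) : ∃ m, eps m < a := by
  obtain ⟨n, hn⟩ := ENNReal.exists_inv_nat_lt ha
  refine ⟨n, lt_of_le_of_lt ?_ hn⟩
  unfold eps
  exact ENNReal.inv_le_inv.mpr le_self_add

/-- A set that is not negligible has sections of measure at least some positive constant for
comeager many points of some basic open set. -/
theorem exists_pos {A : Set (Y × Z)} (hA : MeasurableSet A) (h : ¬ Neg μ A) :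
    ∃ m s, ∀ᶠ y in residual Y, y ∈ cyl s → eps m < μ (sec A y) := by
  have h1 : MeasurableSet {y | μ (sec A y) ≠ 0} :=
    (measurable_sec hA (measurableSet_singleton 0)).compl
  obtain ⟨s₀, hs₀⟩ := exists_cyl_of_not h1 (fun h' => h (by
    filter_upwards [h'] with y hy
    simpa using hy))
  obtain ⟨m, s, -, hs⟩ := pigeon (fun m : ℕ => {y | eps m < μ (sec A y)})
    (fun m => measurableSet_lt measurable_const (measurable_sec hA)) s₀ (by
      filter_upwards [hs₀] with y hy hy'
      exact exists_eps_lt (hy hy'))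
  exact ⟨m, s, hs⟩

/-- The countable chain condition for the ideal. -/
theorem countable_of_pairwise {ι : Type*} (A : ι → Set (Y × Z)) (hA : ∀ i, MeasurableSet (A i))
    (hp : ∀ i, ¬ Neg μ (A i)) (hd : ∀ i j, i ≠ j → Neg μ (A i ∩ A j)) : Countable ι := by
  choose m s hs using fun i => exists_pos (hA i) (hp i)
  have hfin : ∀ p : ℕ × List ℕ, {i | (m i, s i) = p}.Finite := by
    rintro ⟨k, t⟩
    by_contra hinf
    obtain ⟨F, hF, hcard⟩ := Set.Infinite.exists_subset_card_eq hinf (k + 1)
    have h1 : ∀ᶠ y in residual Y, ∀ i : F, y ∈ cyl t → eps k < μ (sec (A i) y) := by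
      refine eventually_countable_forall.mpr fun i => ?_
      have h2 := hF i.2
      simp only [Set.mem_ofPred_eq, Prod.mk.injEq] at h2
      have h3 := hs i
      rw [h2.1, h2.2] at h3
      exact h3
    have h2 : ∀ᶠ y in residual Y, ∀ q : F × F, q.1 ≠ q.2 →
        μ (sec (A q.1) y ∩ sec (A q.2) y) = 0 := by
      refine eventually_countable_forall.mpr fun q => ?_
      by_cases hq : q.1 = q.2
      · exact Eventually.of_forall fun y h => absurd hq h
      · filter_upwards [hd q.1 q.2 (fun h => hq (Subtype.ext h))] with y hy _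
        exact hy
    obtain ⟨y, hy, hy1, hy2⟩ := exists_mem_cyl (h1.and h2) t
    have h3 : μ (⋃ i ∈ F, sec (A i) y) = ∑ i ∈ F, μ (sec (A i) y) := by
      refine measure_biUnion_finset₀ ?_ ?_
      · intro i hi j hj hij
        exact hy2 (⟨i, hi⟩, ⟨j, hj⟩) (fun h => hij (congrArg Subtype.val h))
      · intro i _
        exact ((measurable_prodMk_left (hA i) : MeasurableSet (sec (A i) y))).nullMeasurableSet
    have h4 : (1 : ENNReal) < ∑ i ∈ F, μ (sec (A i) y) := by
      have h5 : ∑ i ∈ F, eps k = 1 := by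
        rw [Finset.sum_const, hcard, nsmul_eq_mul]
        unfold eps
        push_cast
        refine ENNReal.mul_inv_cancel ?_ ?_
        · simp
        · exact ENNReal.add_ne_top.mpr ⟨ENNReal.natCast_ne_top k, ENNReal.one_ne_top⟩
      rw [← h5]
      refine ENNReal.sum_lt_sum_of_nonempty ?_ fun i hi => hy1 ⟨i, hi⟩ hy
      rw [← Finset.card_pos, hcard]
      omega
    have h5 : μ (⋃ i ∈ F, sec (A i) y) ≤ 1 := prob_le_one
    rw [h3] at h5
    exact absurd h5 (not_le.mpr h4)
  have : (Set.univ : Set ι) = ⋃ p : ℕ × List ℕ, {i | (m i, s i) = p} := by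
    ext i; simp
  rw [← Set.countable_univ_iff, this]
  exact Set.countable_iUnion fun p => (hfin p).countable

end Pool.Agent.CR
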