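import Pool.Agent.Lib_helper75.CohenRandom.Space
import Pool.Agent.Lib_helper75.CohenRandom.Algebra

/-!
Unbounded closed sets of the topology given by a Cohen real.
-/

set_option autoImplicit false

namespace Pool.Agent.CR

open Filter Topology Set MeasureTheory TopologicalSpace Pool.Agent.BVM

theorem bounded_of_countable {W : Type} [LinearOrder W] [Uncountable W]
    (hW : ∀ w : W, Countable {v : W // v < w}) {s : Set W} (hs : s.Countable) :
    ∃ w, ∀ v ∈ s, v < w := by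
  by_contra hcon
  push Not at hcon
  have h1 : (univ : Set W) ⊆ ⋃ v ∈ s, Iic v := by
    intro w _
    obtain ⟨v, hv, hvw⟩ := hcon w
    exact mem_biUnion hv hvw
  have h2 : (⋃ v ∈ s, Iic v).Countable := by
    refine hs.biUnion fun v _ => ?_
    have h3 : (Iio v).Countable := Set.countable_coe_iff.mp (hW v)
    rw [← Iio_insert]
    exact h3.insert v
  exact not_countable (Set.countable_univ_iff.mp (h2.mono h1))

section

variable {Z : Type} [MeasurableSpace Z] {μ : Measure Z} [IsProbabilityMeasure μ]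
variable {W : Type} [LinearOrder W]

/-- Finitely many of the sets `H v`, `v > α`, cover `A` up to a small set, over the basic open
set given by `s`. -/
def QQ (μ : Measure Z) (A : Set (Y × Z)) (H : W → Set (Y × Z)) (s : List ℕ) (m : ℕ) (α : W) : Prop :=
  ∃ G : Finset W, (∀ v ∈ G, α < v) ∧
    ∀ᶠ y in residual Y, y ∈ cyl s → μ (sec (A \ ⋃ v ∈ G, H v) y) ≤ eps m

omit [IsProbabilityMeasure μ] in
theorem QQ_anti {A : Set (Y × Z)} {H : W → Set (Y × Z)} {s : List ℕ} {m : ℕ} {α β : W}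
    (h : α ≤ β) (hQ : QQ μ A H s m β) : QQ μ A H s m α := by
  obtain ⟨G, hG, h1⟩ := hQ
  exact ⟨G, fun v hv => lt_of_le_of_lt h (hG v hv), h1⟩

theorem QQ_dense {A : Set (Y × Z)} {H : W → Set (Y × Z)} (hA : MeasurableSet A)
    (hH : ∀ v, MeasurableSet (H v)) (α : W)
    (hu : (phi A : CRAlg μ) ≤ ⨆ v : {v : W // α < v}, phi (H v.1)) (s₀ : List ℕ) (m : ℕ) :
    ∃ s, s₀ <+: s ∧ QQ μ A H s m α := by
  obtain ⟨S, hS, hsup⟩ := (ccc (μ := μ)).exists_countable_sup
    (fun v : {v : W // α < v} => (phi (H v.1) : CRAlg μ))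
  rw [hsup, iSup_subtype'] at hu
  have := hS.to_subtype
  have hphi : (⨆ v : S, (phi (H v.1.1) : CRAlg μ)) = phi (⋃ v : S, H v.1.1) :=
    (phi_iUnion fun v => hH _).symm
  rw [hphi, phi_le_iff hA (MeasurableSet.iUnion fun v => hH _)] at hu
  have hmeas : ∀ G : Finset S, MeasurableSet (A \ ⋃ v ∈ G, H v.1.1) := fun G =>
    hA.diff (Finset.measurableSet_biUnion G fun v _ => hH _)
  obtain ⟨G, s, hs, hG⟩ := pigeon (fun G : Finset S =>
    {y | μ (sec (A \ ⋃ v ∈ G, H v.1.1) y) ≤ eps m})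
    (fun G => measurableSet_le (measurable_sec (hmeas G)) measurable_const) s₀ (by
      filter_upwards [hu] with y hy _
      have h1 : Tendsto (μ ∘ fun G : Finset S => sec (A \ ⋃ v ∈ G, H v.1.1) y) atTop
          (𝓝 (μ (⋂ G : Finset S, sec (A \ ⋃ v ∈ G, H v.1.1) y))) := by
        refine tendsto_measure_iInter_atTop ?_ ?_ ⟨∅, measure_ne_top _ _⟩
        · intro G
          exact (measurable_prodMk_left (hmeas G) :
            MeasurableSet (sec (A \ ⋃ v ∈ G, H v.1.1) y)).nullMeasurableSet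
        · intro G G' hGG z hz
          refine ⟨hz.1, fun h => hz.2 ?_⟩
          simp only [mem_iUnion] at h ⊢
          obtain ⟨v, hv, h⟩ := h
          exact ⟨v, hGG hv, h⟩
      have h2 : (⋂ G : Finset S, sec (A \ ⋃ v ∈ G, H v.1.1) y) =
          sec (A \ ⋃ v : S, H v.1.1) y := by
        ext z
        simp only [mem_iInter, mem_sec, Set.mem_sdiff, mem_iUnion, not_exists]
        constructor
        · intro h
          exact ⟨(h ∅).1, fun v hv => (h {v}).2 v (by simp) hv⟩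
        · intro h G
          exact ⟨h.1, fun v _ hv => h.2 v hv⟩
      rw [h2, hy] at h1
      obtain ⟨G, hG⟩ := (h1.eventually_lt_const (eps_pos m)).exists
      exact ⟨G, hG.le⟩)
  classical
  refine ⟨s, hs, G.image (fun v => v.1.1), ?_, ?_⟩
  · intro v hv
    rw [Finset.mem_image] at hv
    obtain ⟨v, -, rfl⟩ := hv
    exact v.1.2
  · filter_upwards [hG] with y hy hys
    rw [Finset.set_biUnion_finset_image]
    exact hy hys

theorem QQ_all [Uncountable W] (hW : ∀ w : W, Countable {v : W // v < w})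
    {A : Set (Y × Z)} {H : W → Set (Y × Z)} (hA : MeasurableSet A)
    (hH : ∀ v, MeasurableSet (H v))
    (hu : ∀ α, (phi A : CRAlg μ) ≤ ⨆ v : {v : W // α < v}, phi (H v.1)) (s₀ : List ℕ) (m : ℕ) :
    ∃ s, s₀ <+: s ∧ ∀ α, QQ μ A H s m α := by
  by_contra hcon
  push Not at hcon
  choose! α hα using hcon
  obtain ⟨w, hw⟩ := bounded_of_countable hW (Set.countable_range α)
  obtain ⟨s, hs, hQ⟩ := QQ_dense hA hH w (hu w) s₀ m
  exact hα s hs (QQ_anti (hw _ (mem_range_self s)).le hQ)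

variable (μ) in
/-- The truth value of the statement that `t'` is in the basic neighbourhood of `t` with
index `j`. -/
noncomputable def wv (L : Lad W) (t : W × ℕ) (j : ℕ) (t' : W × ℕ) : CRAlg μ :=
  phi {ω | t' ∈ Nb L ω.1 t.2 t.1 j}

/-- The truth value of the statement that `h` is open. -/
noncomputable def Op (L : Lad W) (h : W × ℕ → CRAlg μ) : CRAlg μ :=
  ⨅ t, h t ⇨ ⨆ j, ⨅ t', wv μ L t j t' ⇨ h t'

theorem measurableSet_wv (hW : ∀ w : W, Countable {v : W // v < w}) (L : Lad W) (t : W × ℕ)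
    (j : ℕ) (t' : W × ℕ) : MeasurableSet {ω : Y × Z | t' ∈ Nb L ω.1 t.2 t.1 j} :=
  measurable_fst (measurableSet_Nb hW L t.2 t.1 j t')

theorem claimA [Uncountable W] (hW : ∀ w : W, Countable {v : W // v < w}) (L : Lad W)
    (b : CRAlg μ) (h : W × ℕ → CRAlg μ) (n : ℕ) (hb : b ≤ Op L (fun t => (h t)ᶜ))
    (hu : ∀ α, b ≤ ⨆ v : {v : W // α < v}, h (v.1, n)) :
    ∃ f : W → W, ∀ δ, (∃ v, v < δ) → (∀ v < δ, f v < δ) → b ≤ h (δ, n + 1) := by
  classical
  obtain ⟨A, hA, hAb⟩ := exists_rep b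
  choose H hH hHh using fun v => exists_rep (h (v, n))
  have hu' : ∀ α, (phi A : CRAlg μ) ≤ ⨆ v : {v : W // α < v}, phi (H v.1) := by
    intro α
    rw [hAb]
    simp only [hHh]
    exact hu α
  have hG : ∀ (s : List ℕ) (m : ℕ) (α : W), ∃ G : Finset W, QQ μ A H s m α →
      (∀ v ∈ G, α < v) ∧
        ∀ᶠ y in residual Y, y ∈ cyl s → μ (sec (A \ ⋃ v ∈ G, H v) y) ≤ eps m := by
    intro s m α
    by_cases hQ : QQ μ A H s m α
    · obtain ⟨G, hG⟩ := hQ
      exact ⟨G, fun _ => hG⟩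
    · exact ⟨∅, fun h => absurd h hQ⟩
  choose G hG using hG
  have hf : ∀ α : W, ∃ β : W, ∀ s m, ∀ v ∈ G s m α, v < β := by
    intro α
    obtain ⟨w, hw⟩ := bounded_of_countable hW
      (s := ⋃ p : List ℕ × ℕ, (G p.1 p.2 α : Set W))
      (Set.countable_iUnion fun p => (G p.1 p.2 α).countable_toSet)
    exact ⟨w, fun s m v hv => hw v (mem_iUnion.mpr ⟨(s, m), hv⟩)⟩
  choose f hf using hf
  refine ⟨f, fun δ hδ hfδ => ?_⟩
  obtain ⟨v₀, hv₀⟩ := hδ
  by_contra hcon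
  have h1 : b ⊓ (h (δ, n + 1))ᶜ ≠ ⊥ := by
    intro h0
    apply hcon
    rw [← disjoint_compl_right_iff, disjoint_iff]
    exact h0
  have h2 : b ⊓ (h (δ, n + 1))ᶜ ≤
      ⨆ j, ⨅ t', wv μ L (δ, n + 1) j t' ⇨ (h t')ᶜ := by
    refine le_trans (inf_le_inf_right _ (hb.trans (iInf_le _ (δ, n + 1)))) ?_
    exact himp_inf_le
  obtain ⟨j, hj⟩ : ∃ j, (b ⊓ (h (δ, n + 1))ᶜ) ⊓
      (⨅ t', wv μ L (δ, n + 1) j t' ⇨ (h t')ᶜ) ≠ ⊥ := by
    by_contra hcon'
    push Not at hcon'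
    apply h1
    rw [← inf_eq_left.mpr h2, inf_iSup_eq]
    simp [hcon']
  obtain ⟨C, hC, hCc⟩ := exists_rep ((b ⊓ (h (δ, n + 1))ᶜ) ⊓
      (⨅ t', wv μ L (δ, n + 1) j t' ⇨ (h t')ᶜ))
  have hCn : ¬ Neg μ C := by
    rw [← phi_eq_bot_iff hC, hCc]
    exact hj
  have hCA : Neg μ (C \ A) := by
    rw [← phi_le_iff hC hA, hCc, hAb]
    exact inf_le_left.trans inf_le_left
  obtain ⟨m, s₀, hs₀⟩ := exists_pos hC hCn
  obtain ⟨s, hs, hQ⟩ := QQ_all hW hA hH hu' s₀ m
  set i := Nat.pair n (max j s.length) with hi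
  have hi1 : (Nat.unpair i).1 = n := by rw [hi, Nat.unpair_pair]
  have hi2 : max j s.length ≤ i := Nat.right_le_pair n _
  have hij : j ≤ i := (le_max_left _ _).trans hi2
  have hsi : s.length ≤ i := (le_max_right _ _).trans hi2
  set s1 := s ++ List.replicate (i - s.length) 0 with hs1
  have hlen1 : s1.length = i := by
    rw [hs1, List.length_append, List.length_replicate]
    omega
  set y₁ : Y := fun l => s1.getD l 0 with hy₁
  have hkk : ∀ y ∈ cyl s1, kk y i = kk y₁ i := by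
    intro y hy
    refine kk_congr fun l hl => ?_
    have hl' : l < s1.length := by omega
    rw [hy l hl', hy₁]
    simp [hl', List.getD_eq_getElem?_getD]
  set K := kk y₁ i with hK
  set α := L.eta δ K with hα
  obtain ⟨hG1, hG2⟩ := hG s m α (hQ α)
  have hαδ : α < δ := L.lt δ v₀ K hv₀
  have hG3 : ∀ v ∈ G s m α, v < δ := fun v hv => (hf α s m v hv).trans (hfδ α hαδ)
  have hN : ∀ v : W, ∃ N : ℕ, v < δ → v ≤ L.eta δ N ∧ L.code δ v < N := by
    intro v
    by_cases hv : v < δ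
    · obtain ⟨N, hN⟩ := L.cof δ v hv
      refine ⟨N + L.code δ v + 1, fun _ => ⟨hN.trans (L.mono δ (by omega)), by omega⟩⟩
    · exact ⟨0, fun h => absurd h hv⟩
  choose N hN using hN
  obtain ⟨N₀, hN₀⟩ := exists_bound (G s m α).finite_toSet N
  set s2 := s1 ++ [N₀] with hs2
  have hs12 : s1 <+: s2 := ⟨[N₀], rfl⟩
  have hs2i : ∀ y ∈ cyl s2, y i = N₀ := by
    intro y hy
    have h3 : i < s2.length := by rw [hs2, List.length_append, hlen1]; simp
    rw [hy i h3]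
    simp [hs2, hlen1]
  have hF : ∀ y ∈ cyl s2, ∀ v ∈ G s m α, (v, n) ∈ Nb L y (n + 1) δ j := by
    intro y hy v hv
    refine Or.inr ⟨i, hij, hi1, v, ⟨hG3 v hv, ?_, ?_, ?_⟩, top_mem_Nb⟩
    · rw [hkk y (cyl_mono hs12 hy)]
      exact hG1 v hv
    · rw [kk_succ, hkk y (cyl_mono hs12 hy), hs2i y hy]
      refine (hN v (hG3 v hv)).1.trans (L.mono δ ?_)
      have := hN₀ v hv
      omega
    · rw [hs2i y hy]
      exact lt_of_lt_of_le (hN v (hG3 v hv)).2 (hN₀ v hv)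
  set P : Set (Y × Z) := {ω | ω.1 ∈ cyl s2} with hP
  have hPm : MeasurableSet P := measurable_fst (measurableSet_cyl s2)
  have hNeg : ∀ v ∈ G s m α, Neg μ (C ∩ P ∩ H v) := by
    intro v hv
    rw [← phi_eq_bot_iff ((hC.inter hPm).inter (hH v)), phi_inter (hC.inter hPm) (hH v),
      phi_inter hC hPm, hCc, hHh, ← le_bot_iff]
    have h3 : (phi P : CRAlg μ) ≤ wv μ L (δ, n + 1) j (v, n) :=
      phi_mono hPm (measurableSet_wv hW L _ _ _) fun ω hω => hF ω.1 hω v hv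
    have h4 : (b ⊓ (h (δ, n + 1))ᶜ) ⊓ (⨅ t', wv μ L (δ, n + 1) j t' ⇨ (h t')ᶜ) ≤
        wv μ L (δ, n + 1) j (v, n) ⇨ (h (v, n))ᶜ := inf_le_right.trans (iInf_le _ (v, n))
    refine le_trans (inf_le_inf_right _ (inf_le_inf h4 h3)) ?_
    refine le_trans (inf_le_inf_right _ himp_inf_le) ?_
    simp
  have hev : ∀ᶠ y in residual Y, ∀ v : G s m α, μ (sec (C ∩ P ∩ H v.1) y) = 0 :=
    eventually_countable_forall.mpr fun v => hNeg v.1 v.2
  obtain ⟨y, hy2, hy⟩ := exists_mem_cyl (((hs₀.and hG2).and hCA).and hev) s2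
  obtain ⟨⟨⟨h5, h6⟩, h7⟩, h8⟩ := hy
  have hys : y ∈ cyl s := cyl_mono (⟨List.replicate (i - s.length) 0, hs1.symm⟩ : s <+: s1)
    (cyl_mono hs12 hy2)
  have h5' := h5 (cyl_mono hs hys)
  have h6' := h6 hys
  have h9 : sec C y ⊆ (sec (C \ A) y ∪ sec (A \ ⋃ v ∈ G s m α, H v) y) ∪
      ⋃ v : G s m α, sec (C ∩ P ∩ H v.1) y := by
    intro z hz
    by_cases hzA : (y, z) ∈ A
    · by_cases hzH : (y, z) ∈ ⋃ v ∈ G s m α, H v
      · right
        simp only [mem_iUnion] at hzH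
        obtain ⟨v, hv, hzH⟩ := hzH
        exact mem_iUnion.mpr ⟨⟨v, hv⟩, ⟨hz, hy2⟩, hzH⟩
      · exact Or.inl (Or.inr ⟨hzA, hzH⟩)
    · exact Or.inl (Or.inl ⟨hz, hzA⟩)
  have h10 : μ (sec C y) ≤ eps m := by
    refine (measure_mono h9).trans ((measure_union_le _ _).trans ?_)
    rw [measure_iUnion_null h8, add_zero]
    refine (measure_union_le _ _).trans ?_
    rw [h7, zero_add]
    exact h6'
  exact absurd h5' (not_lt.mpr h10)

end

end Pool.Agent.CR
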