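import Pool.Agent.Lib_helper75.CohenRandom.Random
import Pool.Agent.Lib_helper75.CohenRandom.Notions
import Pool.Agent.Lib_helper75.BVM.Tools

/-!
There are no Lusin sets in the quotient models.
-/

set_option autoImplicit false

namespace Pool.Agent.CR

open Filter Topology Set MeasureTheory Pool.Agent.BVM Pool.Agent.BVM.BSet

section general

variable {B : Type} [CompleteBooleanAlgebra B]

/-- The truth value of the statement that `x` and `r` agree on `I`. -/
def agr (x r : ℕ → B) (I : Finset ℕ) : B := ⨅ n ∈ I, (x n ⇨ r n) ⊓ (r n ⇨ x n)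

/-- The truth value of the statement that `x` does not agree with `r` on any `I i`, `k ≤ i`. -/
def nag (I : ℕ → Finset ℕ) (r : ℕ → B) (k : ℕ) (x : ℕ → B) : B :=
  ⨅ i : ℕ, ⨅ (_ : k ≤ i), (agr x r (I i))ᶜ

/-- The interval with the index `i`. -/
def Ii (i : ℕ) : Finset ℕ := Finset.Ico (i * i) (i * i + i)

theorem card_Ii (i : ℕ) : (Ii i).card = i := by simp [Ii]

end general

section

variable {K : Type}

theorem iSup_nag (x : ℕ → CRAlg (muK K)) :
    ∃ D : Set K, D.Countable ∧ ∀ ξ ∉ D, (⨆ k, nag Ii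
      (fun n => phi {ω : Y × (K × ℕ → Bool) | ω.2 (ξ, n) = true}) k x) = ⊤ := by
  choose S hS hSx using fun n => exists_rep (x n)
  choose D hD hSD using fun n => exists_supp (hS n)
  refine ⟨⋃ n, D n, countable_iUnion hD, fun ξ hξ => ?_⟩
  have hSD' : ∀ n, Supp (S n) (⋃ n, D n) := fun n => (hSD n).mono (subset_iUnion D n)
  have h1 : ∀ I, agr x (fun n => phi {ω : Y × (K × ℕ → Bool) | ω.2 (ξ, n) = true}) I =
      phi (agree S ξ I) := by
    intro I
    have h2 : agree S ξ I = ⋂ n : I, ((S n)ᶜ ∪ {ω : Y × (K × ℕ → Bool) | ω.2 (ξ, n) = true}) ∩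
        ({ω : Y × (K × ℕ → Bool) | ω.2 (ξ, n) = true}ᶜ ∪ S n) := by
      ext ω
      simp only [agree, mem_iInter, mem_inter_iff, mem_union, mem_compl_iff, Set.mem_ofPred_eq,
        Subtype.forall]
      refine forall₂_congr fun n _ => ?_
      tauto
    rw [h2, phi_iInter fun n : I => (((hS n).compl.union (measurableSet_bit ξ n)).inter
      ((measurableSet_bit ξ n).compl.union (hS n)))]
    unfold agr
    rw [iInf_subtype']
    congr 1
    funext n
    rw [phi_inter ((hS n).compl.union (measurableSet_bit ξ n))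
      ((measurableSet_bit ξ n).compl.union (hS n)), phi_himp (hS n) (measurableSet_bit ξ n),
      phi_himp (measurableSet_bit ξ n) (hS n), hSx]
  have hm : ∀ k i : ℕ, MeasurableSet (⋂ (_ : k ≤ i), (agree S ξ (Ii i))ᶜ) := fun k i =>
    MeasurableSet.iInter fun _ => (measurableSet_agree hS ξ _).compl
  have h3 : ∀ k, nag Ii (fun n => phi {ω : Y × (K × ℕ → Bool) | ω.2 (ξ, n) = true}) k x =
      phi (⋂ i : ℕ, ⋂ (_ : k ≤ i), (agree S ξ (Ii i))ᶜ) := by
    intro k
    rw [phi_iInter (hm k)]
    unfold nag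
    congr 1
    funext i
    rw [phi_iInter fun _ => (measurableSet_agree hS ξ _).compl, phi_compl (measurableSet_agree hS ξ _),
      h1]
  simp only [h3]
  rw [← phi_iUnion fun k => MeasurableSet.iInter (hm k), ← phi_univ]
  refine le_antisymm (phi_mono (MeasurableSet.iUnion fun k => MeasurableSet.iInter (hm k))
    MeasurableSet.univ (subset_univ _)) ?_
  rw [phi_le_iff MeasurableSet.univ (MeasurableSet.iUnion fun k => MeasurableSet.iInter (hm k))]
  refine (neg_agree hS hSD' hξ Ii card_Ii).mono ?_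
  rintro ω ⟨-, hω⟩ ⟨k, hk⟩
  apply hω
  simp only [mem_iUnion, mem_iInter, mem_compl_iff]
  exact ⟨k, hk⟩

/-- There is a random real that is independent of the given sequences. -/
theorem exists_fresh {W : Type} [Infinite W] (D : W → Set (Set W)) (hD : ∀ t, (D t).Countable) :
    ∃ ξ, ∀ t, ξ ∉ D t := by
  by_contra hcon
  push Not at hcon
  have h1 : (⋃ t, D t) = univ := by
    ext ξ
    simp only [mem_iUnion, mem_univ, iff_true]
    exact hcon ξ
  have h2 := Cardinal.mk_iUnion_le_sum_mk (f := D)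
  rw [h1, Cardinal.mk_univ, Cardinal.mk_set] at h2
  have h3 : (Cardinal.sum fun t => Cardinal.mk (D t)) ≤ Cardinal.mk W := by
    refine (Cardinal.sum_le_sum _ (fun _ => Cardinal.aleph0) fun t =>
      Cardinal.mk_le_aleph0_iff.mpr (hD t).to_subtype).trans ?_
    rw [Cardinal.sum_const', Cardinal.mul_aleph0_eq]
    · exact Cardinal.aleph0_le_mk W
  exact absurd (h2.trans h3) (not_le.mpr (Cardinal.cantor _))

end

end Pool.Agent.CR
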