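import Pool.Agent.Lib_helper75.CohenRandom.Lusin

/-!
There are no Lusin sets in the quotient models: the proof.
-/

set_option autoImplicit false

namespace Pool.Agent.CR

open Filter Topology Set MeasureTheory Pool.Agent.BVM Pool.Agent.BVM.BSet

section general

variable {B : Type} [CompleteBooleanAlgebra B]

theorem hasTV_isInter' (x y z : BSet B) :
    HasTV fun U => IsInter (Emem U) (cls U x) (cls U y) (cls U z) := by
  unfold IsInter
  exact HasTV.all fun u => (HasTV.mem u x).iff ((HasTV.mem u y).and (HasTV.mem u z))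

theorem hasTV_isNowhereDense (w s : BSet B) :
    HasTV fun U => IsNowhereDense (Emem U) (cls U w) (cls U s) := by
  unfold IsNowhereDense
  exact (HasTV.all fun x => (HasTV.mem _ _).imp (hasTV_isSub _ _)).and
    (HasTV.all fun n => HasTV.all fun a => (HasTV.mem _ _).imp ((hasTV_isSub _ _).imp
      (HasTV.ex fun m => HasTV.ex fun b => (HasTV.mem _ _).and ((hasTV_isSub _ _).and
        ((hasTV_isSub _ _).and ((hasTV_isInter' _ _ _).and (HasTV.all fun x =>
          (HasTV.mem _ _).imp (hasTV_isInter' _ _ _).not)))))))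

theorem agr_mem_iff {V : UF B} {x r : ℕ → B} {I : Finset ℕ} :
    agr x r I ∈ V ↔ ∀ n ∈ I, (x n ∈ V ↔ r n ∈ V) := by
  classical
  unfold agr
  induction I using Finset.induction_on with
  | empty => simp [V.top_mem]
  | insert a F _ ih =>
    rw [Finset.iInf_insert, V.inf_mem_iff, ih, V.inf_mem_iff, V.himp_mem_iff, V.himp_mem_iff]
    simp only [Finset.mem_insert, forall_eq_or_imp]
    tauto

theorem nag_le {I : ℕ → Finset ℕ} {r : ℕ → B} {k : ℕ} {x : ℕ → B} {i : ℕ} (h : k ≤ i) :
    nag I r k x ≤ (agr x r (I i))ᶜ := iInf₂_le i h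

theorem fext_nag (I : ℕ → Finset ℕ) (r : ℕ → B) (k : ℕ) :
    FExt (W := ULift.{0} ℕ) (fun a => nag I r k (fun n => a (ULift.up n))) := by
  intro b a a' h1 h2
  refine le_iInf₂ fun i hi => ?_
  refine (inf_le_inf_left b (nag_le hi)).trans ?_
  refine UF.le_of_forall fun V hV => ?_
  rw [V.inf_mem_iff, V.compl_mem_iff, agr_mem_iff] at hV
  rw [V.compl_mem_iff, agr_mem_iff]
  intro h3
  apply hV.2
  intro n hn
  rw [← h3 n hn]
  exact ⟨fun h => V.mono (V.inf_mem hV.1 h) (h1 _), fun h => V.mono (V.inf_mem hV.1 h) (h2 _)⟩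

/-- The name of the set of the reals that do not agree with `r` on any `Ii i`, `k ≤ i`. -/
noncomputable def nagN (r : ℕ → B) (k : ℕ) : BSet B :=
  famN (W := ULift.{0} ℕ) fun a => nag Ii r k (fun n => a (ULift.up n))

theorem bmem_nagN (r : ℕ → B) (k : ℕ) (x : BSet B) : bmem x (nagN r k) =
    bsub x (omega B) ⊓ nag Ii r k (fun n => bmem (vN B (ULift.up.{0} n)) x) :=
  bmem_famN (fext_nag Ii r k) x

theorem mem_vN_iff {V : UF B} {l n : ℕ} :
    Emem V (cls V (vN B (ULift.up.{0} l))) (cls V (vN B (ULift.up.{0} n))) ↔ l < n := by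
  rw [Emem_cls]
  by_cases h : l < n
  · rw [vN_mem_of_lt (show (ULift.up.{0} l) < ULift.up.{0} n from h)]
    exact ⟨fun _ => h, fun _ => V.top_mem⟩
  · rw [vN_mem_of_not_lt (show ¬ (ULift.up.{0} l) < ULift.up.{0} n from h)]
    exact ⟨fun h' => absurd h' V.bot_notMem, fun h' => absurd h' h⟩

theorem vN_mem_omega' (V : UF B) (n : ℕ) :
    Emem V (cls V (vN B (ULift.up.{0} n))) (cls V (omega B)) := by
  rw [Emem_cls]
  unfold omega
  rw [vN_mem_oT]
  exact V.top_mem

theorem mem_omega_of_mem {V : UF B} {n : ℕ} {z : Mod V}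
    (hz : Emem V z (cls V (vN B (ULift.up.{0} n)))) : Emem V z (cls V (omega B)) :=
  (isOrd_oT (W := ULift.{0} ℕ) V).1 _ z (vN_mem_omega' V n) hz

theorem isNowhereDense_nagN (r : ℕ → B) (k : ℕ) (V : UF B) :
    IsNowhereDense (Emem V) (cls V (omega B)) (cls V (nagN r k)) := by
  refine ⟨fun x hx => ?_, fun n a hn ha => ?_⟩
  · obtain ⟨x, rfl⟩ := cls_surj V x
    rw [Emem_cls, bmem_nagN, V.inf_mem_iff] at hx
    exact isSub_iff.mpr hx.1
  refine forall_mem_omega (P := fun V n => ∀ a, IsSub (Emem V) a n → ∃ m b,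
    Emem V m (cls V (omega B)) ∧ IsSub (Emem V) n m ∧ IsSub (Emem V) b m ∧
      IsInter (Emem V) a b n ∧ ∀ x, Emem V x (cls V (nagN r k)) → ¬ IsInter (Emem V) b x m)
    (fun n => HasTV.all fun a => (hasTV_isSub _ _).imp (HasTV.ex fun m => HasTV.ex fun b =>
      (HasTV.mem _ _).and ((hasTV_isSub _ _).and ((hasTV_isSub _ _).and
        ((hasTV_isInter' _ _ _).and (HasTV.all fun x =>
          (HasTV.mem _ _).imp (hasTV_isInter' _ _ _).not)))))) V.top_mem
    (fun n V _ a ha => ?_) n hn a ha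
  obtain ⟨a, rfl⟩ := cls_surj V a
  set i := max n k with hi
  have hni : n ≤ i * i := by
    have h1 : n ≤ i := le_max_left _ _
    nlinarith [h1, Nat.zero_le i, Nat.zero_le n, mul_self_nonneg (i : ℤ),
      Nat.le_mul_self i]
  set m := i * i + i with hm
  have hnm : n ≤ m := by omega
  let bv : ULift.{0} ℕ → B := fun l =>
    if l.down < n then bmem (vN B l) a else if l.down < m then r l.down else ⊥
  have hb : ∀ (V : UF B) (l : ℕ), Emem V (cls V (vN B (ULift.up.{0} l))) (cls V (subN bv)) ↔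
      (if l < n then bmem (vN B (ULift.up.{0} l)) a else if l < m then r l else ⊥) ∈ V := by
    intro V l
    rw [Emem_cls, vN_mem_subN]
  have hbω : ∀ (V : UF B) (z : Mod V), Emem V z (cls V (subN bv)) →
      Emem V z (cls V (omega B)) := fun V z hz =>
    isSub_iff.mpr (by unfold omega; rw [subN_sub]; exact V.top_mem) z hz
  refine ⟨cls V (vN B (ULift.up.{0} m)), cls V (subN bv), vN_mem_omega' V m, ?_, ?_, ?_, ?_⟩
  · intro z hz
    refine forall_mem_omega (P := fun V z => Emem V z (cls V (vN B (ULift.up.{0} n))) →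
      Emem V z (cls V (vN B (ULift.up.{0} m)))) (fun x => (HasTV.mem _ _).imp (HasTV.mem _ _))
      V.top_mem (fun l V' _ h => ?_) z (mem_omega_of_mem hz) hz
    rw [mem_vN_iff] at h ⊢
    omega
  · intro z hz
    refine forall_mem_omega (P := fun V z => Emem V z (cls V (subN bv)) →
      Emem V z (cls V (vN B (ULift.up.{0} m)))) (fun x => (HasTV.mem _ _).imp (HasTV.mem _ _))
      V.top_mem (fun l V' _ h => ?_) z (hbω V z hz) hz
    rw [mem_vN_iff]
    rw [hb] at h
    by_contra hlm
    rw [if_neg (by omega), if_neg hlm] at h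
    exact V'.bot_notMem h
  · have key : ∀ z, Emem V z (cls V (omega B)) → (Emem V z (cls V a) ↔
        (Emem V z (cls V (subN bv)) ∧ Emem V z (cls V (vN B (ULift.up.{0} n))))) := by
      intro z hz
      refine forall_mem_omega (P := fun V z => (Emem V z (cls V a) ↔
        (Emem V z (cls V (subN bv)) ∧ Emem V z (cls V (vN B (ULift.up.{0} n))))))
        (fun x => (HasTV.mem _ _).iff ((HasTV.mem _ _).and (HasTV.mem _ _)))
        (isSub_iff.mp ha) (fun l V' hV' => ?_) z hz
      rw [mem_vN_iff, hb]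
      have h1 := isSub_iff.mpr hV'
      constructor
      · intro h
        have h2 : l < n := mem_vN_iff.mp (h1 _ h)
        rw [if_pos h2]
        exact ⟨h, h2⟩
      · rintro ⟨h, h2⟩
        rw [if_pos h2] at h
        exact h
    intro z
    constructor
    · intro hz
      exact (key z (mem_omega_of_mem (ha z hz))).mp hz
    · intro hz
      exact (key z (hbω V z hz.1)).mpr hz
  · intro x hx hinter
    obtain ⟨x, rfl⟩ := cls_surj V x
    rw [Emem_cls, bmem_nagN, V.inf_mem_iff] at hx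
    have h1 := V.mono hx.2 (nag_le (le_max_right n k))
    rw [V.compl_mem_iff] at h1
    apply h1
    rw [agr_mem_iff]
    intro l hl
    rw [← hi] at hl
    unfold Ii at hl
    rw [Finset.mem_Ico] at hl
    have h2 := hinter (cls V (vN B (ULift.up.{0} l)))
    rw [hb, if_neg (by omega), if_pos (by omega), mem_vN_iff] at h2
    rw [h2]
    exact ⟨fun h => ⟨h, by omega⟩, fun h => h.1⟩

theorem inj_support_family (h : CCC B) {W : Type} (t : B) (f d : BSet B) (x : W → BSet B)
    (hx : ∀ w w', w ≠ w' → t ⊓ beq (x w) (x w') = ⊥)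
    (hf : ∀ V : UF B, t ∈ V → IsInj (Emem V) (cls V f) (cls V d) (cls V (omega B))) :
    {w : W | t ⊓ bmem (x w) d ≠ ⊥}.Countable := by
  refine h.countable_of_inj t _ (fun w (k : ℕ) => bmem (x w) d ⊓
    bmem (opair (x w) (vN B (ULift.up.{0} k))) f) ?_ ?_
  · intro w hw
    by_contra hcon
    push Not at hcon
    apply hw
    rw [← le_bot_iff]
    have h1 : t ⊓ bmem (x w) d ≤ ⨆ z, bmem z (omega B) ⊓ bmem (opair (x w) z) f := by
      refine UF.le_of_forall fun V hV => ?_
      obtain ⟨ht, hwd⟩ := V.inf_mem_iff.mp hV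
      obtain ⟨⟨hp, hfun⟩, -⟩ := hf V ht
      obtain ⟨z, ⟨p, hp1, hp2⟩, -⟩ := hfun (cls V (x w)) hwd
      obtain ⟨x', y', hx', hy', hp'⟩ := hp p hp2
      obtain ⟨z, rfl⟩ := cls_surj V z
      obtain ⟨x', rfl⟩ := cls_surj V x'
      obtain ⟨y', rfl⟩ := cls_surj V y'
      have h5 : Rel (Emem V) (cls V f) (cls V (x w)) (cls V z) := ⟨p, hp1, hp2⟩
      rw [isPair_iff] at hp1 hp'
      obtain ⟨-, h4⟩ := cls_opair_inj (hp1.symm.trans hp')
      rw [← h4] at hy'
      exact V.mono (V.inf_mem hy' (rel_iff.mp h5))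
        (le_iSup (fun z => bmem z (omega B) ⊓ bmem (opair (x w) z) f) z)
    have h2 : t ⊓ bmem (x w) d ≤ ⨆ k : ℕ, t ⊓ (bmem (x w) d ⊓
        bmem (opair (x w) (vN B (ULift.up.{0} k))) f) := by
      calc t ⊓ bmem (x w) d
          ≤ (t ⊓ bmem (x w) d) ⊓ ⨆ z, bmem z (omega B) ⊓ bmem (opair (x w) z) f :=
            le_inf le_rfl h1
        _ = ⨆ z, (t ⊓ bmem (x w) d) ⊓ (bmem z (omega B) ⊓ bmem (opair (x w) z) f) :=
            inf_iSup_eq _ _
        _ ≤ _ := by
            refine iSup_le fun z => ?_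
            rw [bmem_omega]
            calc (t ⊓ bmem (x w) d) ⊓ ((⨆ n : ℕ, beq z (vN B (ULift.up.{0} n))) ⊓
                bmem (opair (x w) z) f)
                ≤ ((t ⊓ bmem (x w) d) ⊓ bmem (opair (x w) z) f) ⊓
                  ⨆ n : ℕ, beq z (vN B (ULift.up.{0} n)) :=
                  le_inf (inf_le_inf_left _ inf_le_right) (inf_le_right.trans inf_le_left)
              _ = ⨆ n : ℕ, ((t ⊓ bmem (x w) d) ⊓ bmem (opair (x w) z) f) ⊓
                  beq z (vN B (ULift.up.{0} n)) := inf_iSup_eq _ _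
              _ ≤ _ := by
                  refine iSup_mono fun n => ?_
                  refine le_inf (inf_le_left.trans (inf_le_left.trans inf_le_left))
                    (le_inf (inf_le_left.trans (inf_le_left.trans inf_le_right)) ?_)
                  have h4 : beq z (vN B (ULift.up.{0} n)) ≤
                      beq (opair (x w) z) (opair (x w) (vN B (ULift.up.{0} n))) := by
                    rw [beq_opair, beq_refl, top_inf_eq]
                  exact le_trans (le_inf (inf_le_right.trans h4)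
                    (inf_le_left.trans inf_le_right)) (bmem_congr_left _ _ _)
    refine h2.trans (iSup_le fun k => ?_)
    rw [hcon k]
  · intro w w' k hww
    rw [← le_bot_iff]
    refine UF.le_of_forall fun V hV => ?_
    simp only [V.inf_mem_iff] at hV
    obtain ⟨⟨ht, hwd, hr⟩, hwd', hr'⟩ := hV
    have h1 := (hf V ht).2 _ _ _ (rel_iff.mpr hr) (rel_iff.mpr hr')
    rw [cls_eq] at h1
    rw [← hx w w' hww]
    exact V.inf_mem ht h1

/-- Pairwise different elements of a set that is uncountable with truth value at least `p`. -/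
theorem exists_family {W : Type} [LinearOrder W] [WellFoundedLT W]
    (hW : ∀ w : W, Countable {v : W // v < w}) (p : B) (l : BSet B)
    (hl : ∀ V : UF B, p ∈ V → ¬ IsCountable (Emem V) (cls V l)) :
    ∃ x : W → BSet B, (∀ t, p ≤ bmem (x t) l) ∧ ∀ t t', t ≠ t' → p ⊓ beq (x t) (x t') = ⊥ := by
  have key : ∀ (t : W) (y : {s : W // s < t} → BSet B), ∃ x : BSet B, p ≤ bmem x l ∧
      ∀ s, p ⊓ beq x (y s) = ⊥ := by
    intro t y
    have hE : Ext fun x : BSet B => bmem x l ⊓ ⨅ s, (beq x (y s))ᶜ :=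
      (ext_bmem_left l).inf (Ext.iInf fun s => (ext_beq_left (y s)).compl)
    obtain ⟨x, hx⟩ := exists_eq_iSup hE
    have h1 : p ≤ ⨆ x, bmem x l ⊓ ⨅ s, (beq x (y s))ᶜ := by
      by_contra hcon
      have h2 : p ⊓ (⨆ x, bmem x l ⊓ ⨅ s, (beq x (y s))ᶜ)ᶜ ≠ ⊥ := by
        intro h0
        apply hcon
        rw [← disjoint_compl_right_iff, disjoint_iff]
        exact h0
      obtain ⟨V, hV⟩ := UF.exists_mem h2
      have := hW t
      refine hl V (V.inf_mem_iff.mp hV).1 (isCountable_of_cover y hV l fun z => ?_)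
      have h3 : bmem z l ⊓ (⨅ s, (beq z (y s))ᶜ) ≤ ⨆ x, bmem x l ⊓ ⨅ s, (beq x (y s))ᶜ :=
        le_iSup (fun x => bmem x l ⊓ ⨅ s, (beq x (y s))ᶜ) z
      rw [← compl_iSup] at h3
      have h4 : (p ⊓ (⨆ x, bmem x l ⊓ ⨅ s, (beq x (y s))ᶜ)ᶜ ⊓ bmem z l) ⊓
          (⨆ s, beq z (y s))ᶜ ≤ ⊥ := by
        refine (le_inf (inf_le_left.trans (inf_le_left.trans inf_le_right))
          ((le_inf (inf_le_left.trans inf_le_right) inf_le_right).trans h3)).trans ?_
        simp
      rw [← disjoint_compl_right_iff, disjoint_iff_inf_le]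
      exact h4
    rw [← hx] at h1
    refine ⟨x, h1.trans inf_le_left, fun s => ?_⟩
    rw [← le_bot_iff]
    refine (le_inf ((inf_le_left.trans h1).trans (inf_le_right.trans (iInf_le _ s)))
      inf_le_right).trans ?_
    simp
  choose F hF using key
  let x : W → BSet B := (wellFounded_lt (α := W)).fix fun t ih => F t fun s => ih s.1 s.2
  have hx : ∀ t, x t = F t fun s => x s.1 := fun t => WellFounded.fix_eq _ _ _
  have h1 : ∀ t s, s < t → p ⊓ beq (x t) (x s) = ⊥ := by
    intro t s hst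
    rw [hx t]
    exact (hF t fun s => x s.1).2 ⟨s, hst⟩
  refine ⟨x, fun t => ?_, fun t t' htt => ?_⟩
  · rw [hx]
    exact (hF t fun s => x s.1).1
  · rcases lt_or_gt_of_ne htt with h | h
    · rw [beq_symm]
      exact h1 t' t h
    · exact h1 t t' h

end general

/-- There are no Lusin sets in the quotient models. -/
theorem not_isLusinSet {W : Type} [LinearOrder W] [WellFoundedLT W] [Uncountable W]
    (hW : ∀ w : W, Countable {v : W // v < w}) (U : UF (CRAlg (muK (Set W)))) (l : Mod U) :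
    ¬ IsLusinSet (Emem U) l := by
  rintro ⟨w, hw, h1, h2, h3⟩
  obtain ⟨l, rfl⟩ := cls_surj U l
  rw [isOmega_iff] at hw
  subst hw
  obtain ⟨p, hp⟩ : HasTV fun V : UF (CRAlg (muK (Set W))) =>
      (∀ x, Emem V x (cls V l) → IsSub (Emem V) x (cls V (omega _))) ∧
      ¬ IsCountable (Emem V) (cls V l) ∧ ∀ s i, IsNowhereDense (Emem V) (cls V (omega _)) s →
        IsInter (Emem V) i (cls V l) s → IsCountable (Emem V) i :=
    (HasTV.all fun x => (HasTV.mem _ _).imp (hasTV_isSub _ _)).and ((hasTV_isCountable _).not.and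
      (HasTV.all fun s => HasTV.all fun i => (hasTV_isNowhereDense _ _).imp
        ((hasTV_isInter' _ _ _).imp (hasTV_isCountable _))))
  beta_reduce at hp
  have hpU : p ∈ U := (hp U).mp ⟨h1, h2, h3⟩
  have hpne : p ≠ ⊥ := by
    rintro rfl
    exact U.bot_notMem hpU
  obtain ⟨x, hx1, hx2⟩ := exists_family hW p l fun V hV => ((hp V).mpr hV).2.1
  choose D hD hDx using fun t => iSup_nag (K := Set W)
    (fun n => bmem (vN (CRAlg (muK (Set W))) (ULift.up.{0} n)) (x t))
  obtain ⟨ξ, hξ⟩ := exists_fresh D hD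
  set r : ℕ → CRAlg (muK (Set W)) := fun n =>
    phi {ω : Y × (Set W × ℕ → Bool) | ω.2 (ξ, n) = true} with hr
  have hsub : ∀ t, p ≤ bsub (x t) (omega _) := by
    intro t
    refine UF.le_of_forall fun V hV => ?_
    rw [← isSub_iff]
    exact ((hp V).mpr hV).1 _ (V.mono hV (hx1 t))
  have hC : ∀ k, {t | p ⊓ bmem (x t) (nagN r k) ≠ ⊥}.Countable := by
    intro k
    have hE : Ext fun z : BSet (CRAlg (muK (Set W))) => bmem z (nagN r k) := ext_bmem_left _
    set d := sep l fun z => bmem z (nagN r k) with hd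
    have hdm : ∀ z, bmem z d = bmem z l ⊓ bmem z (nagN r k) := bmem_sep l hE
    obtain ⟨f, hf⟩ := HasTV.exists_witness
      (P := fun U f => IsInj (Emem U) f (cls U d) (cls U (omega _)))
      (fun f => hasTV_isInj f d (omega _))
    have h4 := inj_support_family (ccc (μ := muK (Set W))) p f d x hx2 (fun V hV => by
      refine hf V (isCountable_iff.mp ?_)
      refine ((hp V).mpr hV).2.2 (cls V (nagN r k)) _ (isNowhereDense_nagN r k V) ?_
      intro z
      obtain ⟨z, rfl⟩ := cls_surj V z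
      rw [Emem_cls, hdm, V.inf_mem_iff]
      exact Iff.rfl)
    refine h4.mono fun t ht => ?_
    have h5 : p ⊓ bmem (x t) d = p ⊓ bmem (x t) (nagN r k) := by
      rw [hdm, ← inf_assoc, inf_eq_left.mpr (hx1 t)]
    show p ⊓ bmem (x t) d ≠ ⊥
    rw [h5]
    exact ht
  have hall : ∀ t, ∃ k, p ⊓ bmem (x t) (nagN r k) ≠ ⊥ := by
    intro t
    by_contra hcon
    push Not at hcon
    apply hpne
    have h6 := hDx t ξ (hξ t)
    have h7 : p ≤ ⨆ k, p ⊓ bmem (x t) (nagN r k) := by
      rw [← inf_iSup_eq]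
      refine le_inf le_rfl ?_
      calc p ≤ bsub (x t) (omega _) ⊓ (⨆ k, nag Ii r k (fun n =>
            bmem (vN (CRAlg (muK (Set W))) (ULift.up.{0} n)) (x t))) := by
            refine le_inf (hsub t) ?_
            rw [h6]
            exact le_top
        _ = _ := by
            rw [inf_iSup_eq]
            simp only [bmem_nagN]
    rw [← le_bot_iff]
    refine h7.trans (iSup_le fun k => ?_)
    rw [hcon k]
  have h8 : (univ : Set W) ⊆ ⋃ k, {t | p ⊓ bmem (x t) (nagN r k) ≠ ⊥} := by
    intro t _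
    obtain ⟨k, hk⟩ := hall t
    exact mem_iUnion.mpr ⟨k, hk⟩
  exact not_countable (Set.countable_univ_iff.mp ((countable_iUnion hC).mono h8))

end Pool.Agent.CR
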