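import Pool.Agent.Lib_helper75.CohenRandom.Closed

/-!
The interior operator, and the separation of disjoint closed sets.
-/

set_option autoImplicit false

namespace Pool.Agent.CR

open Filter Topology Set MeasureTheory TopologicalSpace Pool.Agent.BVM

section

variable {Z : Type} [MeasurableSpace Z] {μ : Measure Z} [IsProbabilityMeasure μ]
variable {W : Type} [LinearOrder W]

/-- The interior. -/
noncomputable def inn (L : Lad W) (h : W × ℕ → CRAlg μ) (x : W × ℕ) : CRAlg μ :=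
  ⨆ j, ⨅ x', wv μ L x j x' ⇨ h x'

variable (L : Lad W)

omit [IsProbabilityMeasure μ] in
theorem Op_eq (h : W × ℕ → CRAlg μ) : Op L h = ⨅ x, h x ⇨ inn L h x := rfl

omit [IsProbabilityMeasure μ] in
theorem le_Op_iff {p : CRAlg μ} {h : W × ℕ → CRAlg μ} :
    p ≤ Op L h ↔ ∀ x, p ⊓ h x ≤ inn L h x := by
  rw [Op_eq, le_iInf_iff]
  simp only [le_himp_iff]

omit [IsProbabilityMeasure μ] in
theorem inn_mono {h k : W × ℕ → CRAlg μ} (hk : ∀ t, h t ≤ k t) (x : W × ℕ) :
    inn L h x ≤ inn L k x :=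
  iSup_mono fun _ => iInf_mono fun t => himp_le_himp_left (hk t)

omit [IsProbabilityMeasure μ] in
theorem inn_const (c : CRAlg μ) (x : W × ℕ) : c ≤ inn L (fun _ => c) x :=
  le_iSup_of_le 0 (le_iInf fun _ => le_himp)

omit [IsProbabilityMeasure μ] in
theorem wv_anti (hW : ∀ w : W, Countable {v : W // v < w}) (x : W × ℕ) {j j' : ℕ} (h : j ≤ j')
    (t : W × ℕ) : wv μ L x j' t ≤ wv μ L x j t :=
  phi_mono (measurableSet_wv hW L _ _ _) (measurableSet_wv hW L _ _ _) fun _ hω => Nb_anti h hω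

omit [IsProbabilityMeasure μ] in
theorem wv_top (x : W × ℕ) (j : ℕ) : wv μ L x j x = ⊤ := by
  unfold wv
  have : {ω : Y × Z | x ∈ Nb L ω.1 x.2 x.1 j} = univ := by
    ext ω
    simp only [Set.mem_ofPred_eq, mem_univ, iff_true]
    exact top_mem_Nb (δ := x.1) (n := x.2)
  rw [this, phi_univ]

omit [IsProbabilityMeasure μ] in
theorem wv_eq_bot {x : W × ℕ} {j : ℕ} {t : W × ℕ} (h : ∀ y, t ∉ Nb L y x.2 x.1 j) :
    wv μ L x j t = ⊥ := by
  unfold wv
  have : {ω : Y × Z | t ∈ Nb L ω.1 x.2 x.1 j} = ∅ := by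
    ext ω
    simp only [Set.mem_ofPred_eq, mem_empty_iff_false, iff_false]
    exact h ω.1
  rw [this, phi_empty]

omit [IsProbabilityMeasure μ] in
theorem wv_pos {x : W × ℕ} {j : ℕ} {t : W × ℕ} (h : ¬ t.1 ≤ x.1) : wv μ L x j t = ⊥ :=
  wv_eq_bot L fun _ ht => h (Nb_pos_le ht)

omit [IsProbabilityMeasure μ] in
theorem wv_layer {x : W × ℕ} {j : ℕ} {t : W × ℕ} (h : ¬ t.2 ≤ x.2) : wv μ L x j t = ⊥ :=
  wv_eq_bot L fun _ ht => h (Nb_layer_le ht)

omit [IsProbabilityMeasure μ] in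
theorem inn_le (h : W × ℕ → CRAlg μ) (x : W × ℕ) : inn L h x ≤ h x := by
  refine iSup_le fun j => (iInf_le _ x).trans ?_
  rw [wv_top, top_himp]

omit [IsProbabilityMeasure μ] in
theorem inn_inf (hW : ∀ w : W, Countable {v : W // v < w}) (h k : W × ℕ → CRAlg μ) (x : W × ℕ) :
    inn L h x ⊓ inn L k x ≤ inn L (fun t => h t ⊓ k t) x := by
  unfold inn
  rw [inf_iSup_eq]
  refine iSup_le fun j' => ?_
  rw [iSup_inf_eq]
  refine iSup_le fun j => le_iSup_of_le (max j j') (le_iInf fun t => ?_)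
  rw [le_himp_iff]
  refine le_inf ?_ ?_
  · refine le_trans (inf_le_inf (inf_le_left.trans (iInf_le _ t))
      (wv_anti L hW x (le_max_left j j') t)) himp_inf_le
  · refine le_trans (inf_le_inf (inf_le_right.trans (iInf_le _ t))
      (wv_anti L hW x (le_max_right j j') t)) himp_inf_le

omit [IsProbabilityMeasure μ] in
theorem inn_finset (hW : ∀ w : W, Countable {v : W // v < w}) {ι : Type} (F : Finset ι)
    (h : ι → W × ℕ → CRAlg μ) (x : W × ℕ) :
    (⨅ q ∈ F, inn L (h q) x) ≤ inn L (fun t => ⨅ q ∈ F, h q t) x := by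
  classical
  induction F using Finset.induction_on with
  | empty =>
    simp only [Finset.notMem_empty, iInf_false, iInf_top]
    exact inn_const L ⊤ x
  | insert a F _ ih =>
    simp only [Finset.iInf_insert]
    exact (inf_le_inf_left _ ih).trans (inn_inf L hW _ _ x)

omit [IsProbabilityMeasure μ] in
theorem inn_finite (hW : ∀ w : W, Countable {v : W // v < w}) {ι : Type} [Finite ι]
    (h : ι → W × ℕ → CRAlg μ) (x : W × ℕ) :
    (⨅ q, inn L (h q) x) ≤ inn L (fun t => ⨅ q, h q t) x := by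
  have := Fintype.ofFinite ι
  have h1 := inn_finset L hW Finset.univ h x
  simpa using h1

omit [IsProbabilityMeasure μ] in
theorem phi_le_inn (hW : ∀ w : W, Countable {v : W // v < w}) {A : Set (Y × Z)}
    {H : W × ℕ → Set (Y × Z)} (hA : MeasurableSet A) (hH : ∀ t, MeasurableSet (H t)) (x : W × ℕ)
    (h : ∀ ω ∈ A, ∃ j, ∀ t ∈ Nb L ω.1 x.2 x.1 j, ω ∈ H t) :
    phi A ≤ inn L (fun t => (phi (H t) : CRAlg μ)) x := by
  have hc1 : Countable {v : W // v ≤ x.1} := by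
    have h3 : (Iio x.1).Countable := Set.countable_coe_iff.mp (hW x.1)
    have h4 : (Iic x.1).Countable := by
      rw [← Iio_insert]
      exact h3.insert x.1
    exact h4.to_subtype
  have hc : Countable {t : W × ℕ // t.1 ≤ x.1} := by
    have : Function.Injective (fun t : {t : W × ℕ // t.1 ≤ x.1} =>
        ((⟨t.1.1, t.2⟩ : {v : W // v ≤ x.1}), t.1.2)) := by
      intro t t' htt
      simp only [Prod.mk.injEq, Subtype.mk.injEq] at htt
      exact Subtype.ext (Prod.ext htt.1 htt.2)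
    exact this.countable
  have hm : ∀ j (t : {t : W × ℕ // t.1 ≤ x.1}),
      MeasurableSet ({ω : Y × Z | t.1 ∈ Nb L ω.1 x.2 x.1 j}ᶜ ∪ H t.1) := fun j t =>
    (measurableSet_wv hW L _ _ _).compl.union (hH _)
  have h1 : A ⊆ ⋃ j, ⋂ t : {t : W × ℕ // t.1 ≤ x.1},
      ({ω : Y × Z | t.1 ∈ Nb L ω.1 x.2 x.1 j}ᶜ ∪ H t.1) := by
    intro ω hω
    obtain ⟨j, hj⟩ := h ω hω
    refine mem_iUnion.mpr ⟨j, mem_iInter.mpr fun t => ?_⟩
    by_cases ht : t.1 ∈ Nb L ω.1 x.2 x.1 j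
    · exact Or.inr (hj _ ht)
    · exact Or.inl ht
  refine (phi_mono hA (MeasurableSet.iUnion fun j => MeasurableSet.iInter fun t => hm j t)
    h1).trans ?_
  rw [phi_iUnion fun j => MeasurableSet.iInter fun t => hm j t]
  refine iSup_mono fun j => le_iInf fun t => ?_
  rw [phi_iInter fun t => hm j t]
  by_cases ht : t.1 ≤ x.1
  · refine (iInf_le _ (⟨t, ht⟩ : {t : W × ℕ // t.1 ≤ x.1})).trans ?_
    rw [phi_himp (measurableSet_wv hW L _ _ _) (hH _)]
    exact le_rfl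
  · rw [wv_pos L ht, bot_himp]
    exact le_top

omit [IsProbabilityMeasure μ] in
theorem wv_open (hW : ∀ w : W, Countable {v : W // v < w}) (q : W × ℕ) (j : ℕ) (x : W × ℕ) :
    wv μ L q j x ≤ inn L (fun t => wv μ L q j t) x :=
  phi_le_inn L hW (measurableSet_wv hW L _ _ _) (fun t => measurableSet_wv hW L _ _ _) x
    fun _ hω => by
      obtain ⟨j', hj'⟩ := Nb_open hω
      exact ⟨j', fun t ht => hj' ht⟩

omit [IsProbabilityMeasure μ] in
theorem wv_closed (hW : ∀ w : W, Countable {v : W // v < w}) (q : W × ℕ) (j : ℕ) (x : W × ℕ) :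
    (wv μ L q j x)ᶜ ≤ inn L (fun t => (wv μ L q j t)ᶜ) x := by
  unfold wv
  rw [← phi_compl (measurableSet_wv hW L _ _ _)]
  have h1 : ∀ t : W × ℕ, (phi {ω : Y × Z | t ∈ Nb L ω.1 q.2 q.1 j} : CRAlg μ)ᶜ =
      phi {ω : Y × Z | t ∈ Nb L ω.1 q.2 q.1 j}ᶜ := fun t =>
    (phi_compl (measurableSet_wv hW L _ _ _)).symm
  simp only [h1]
  refine phi_le_inn L hW (measurableSet_wv hW L _ _ _).compl
    (fun t => (measurableSet_wv hW L _ _ _).compl) x fun ω hω => ?_
  obtain ⟨j', hj'⟩ := Nb_closed (L := L) (y := ω.1) hω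
  exact ⟨j', fun t ht => Set.disjoint_left.mp hj' ht⟩

omit [IsProbabilityMeasure μ] in
theorem inn_above (hW : ∀ w : W, Countable {v : W // v < w}) {α : W} {x : W × ℕ} (h : α < x.1)
    (c : CRAlg μ) : c ≤ inn L (fun t => if α < t.1 then c else ⊥) x := by
  classical
  have h1 : (phi univ : CRAlg μ) ≤ inn L (fun t => phi (if α < t.1 then univ else ∅)) x := by
    refine phi_le_inn L hW MeasurableSet.univ (fun t => ?_) x fun ω _ => ?_
    · by_cases ht : α < t.1
      · rw [if_pos ht]; exact MeasurableSet.univ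
      · rw [if_neg ht]; exact MeasurableSet.empty
    · obtain ⟨j, hj⟩ := Nb_above (L := L) (y := ω.1) h
      refine ⟨j, fun t ht => ?_⟩
      rw [if_pos (hj t ht)]
      trivial
  rw [phi_univ] at h1
  refine (le_inf (inn_const L c x) (le_top.trans h1)).trans ((inn_inf L hW _ _ x).trans ?_)
  refine inn_mono L (fun t => ?_) x
  by_cases ht : α < t.1
  · rw [if_pos ht, if_pos ht]; exact inf_le_left
  · rw [if_neg ht, if_neg ht, phi_empty]; exact inf_le_right

variable {L}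

section sep

variable {Q : Type} (pt : Q → W × ℕ) (ix : Q → ℕ) (e : Q → ℕ)

/-- The basic neighbourhood given by `q` is a neighbourhood of a point of `h` that is disjoint
from `k`. -/
noncomputable def good (L : Lad W) (h k : W × ℕ → CRAlg μ) (q : Q) : CRAlg μ :=
  h (pt q) ⊓ ⨅ s, wv μ L (pt q) (ix q) s ⇨ (k s)ᶜ

/-- The separating open set. -/
noncomputable def sepa (L : Lad W) (h k : W × ℕ → CRAlg μ) (x : W × ℕ) : CRAlg μ :=
  ⨆ q : Q, (good pt ix L h k q ⊓ wv μ L (pt q) (ix q) x) ⊓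
    ⨅ q' : {q' : Q // e q' < e q}, (good pt ix L k h q'.1 ⇨ (wv μ L (pt q'.1) (ix q'.1) x)ᶜ)

variable {pt ix e}

omit [IsProbabilityMeasure μ] in
theorem sepa_disj (he : Function.Injective e) {p : CRAlg μ} {h k : W × ℕ → CRAlg μ}
    (hd : ∀ t, p ⊓ h t ⊓ k t = ⊥) (x : W × ℕ) :
    p ⊓ sepa pt ix e L h k x ⊓ sepa pt ix e L k h x = ⊥ := by
  unfold sepa
  rw [← le_bot_iff, inf_iSup_eq]
  refine iSup_le fun q' => ?_
  rw [inf_iSup_eq, iSup_inf_eq]
  refine iSup_le fun q => ?_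
  rcases lt_trichotomy (e q) (e q') with hlt | heq | hgt
  · refine UF.le_of_forall fun V hV => ?_
    simp only [V.inf_mem_iff] at hV
    obtain ⟨⟨hp, ⟨hg, hw⟩, -⟩, -, hi⟩ := hV
    have h1 := V.mono hi (iInf_le _ (⟨q, hlt⟩ : {r : Q // e r < e q'}))
    rw [V.himp_mem_iff, V.compl_mem_iff] at h1
    exact absurd hw (h1 hg)
  · obtain rfl := he heq
    refine UF.le_of_forall fun V hV => ?_
    simp only [V.inf_mem_iff] at hV
    obtain ⟨⟨hp, ⟨hg, hw⟩, -⟩, ⟨hg', -⟩, -⟩ := hV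
    unfold good at hg hg'
    rw [V.inf_mem_iff] at hg hg'
    rw [← hd (pt q)]
    exact V.inf_mem (V.inf_mem hp hg.1) hg'.1
  · refine UF.le_of_forall fun V hV => ?_
    simp only [V.inf_mem_iff] at hV
    obtain ⟨⟨hp, -, hi⟩, ⟨hg', hw'⟩, -⟩ := hV
    have h1 := V.mono hi (iInf_le _ (⟨q', hgt⟩ : {r : Q // e r < e q}))
    rw [V.himp_mem_iff, V.compl_mem_iff] at h1
    exact absurd hw' (h1 hg')

omit [IsProbabilityMeasure μ] in
theorem le_sepa {p : CRAlg μ} {h k : W × ℕ → CRAlg μ}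
    (hp : p ≤ Op L (fun t => (k t)ᶜ)) (hd : ∀ t, p ⊓ h t ⊓ k t = ⊥) (x : W × ℕ)
    (hx : ∀ j, ∃ q, pt q = x ∧ ix q = j) : p ⊓ h x ≤ sepa pt ix e L h k x := by
  have h1 : p ⊓ h x ≤ inn L (fun t => (k t)ᶜ) x := by
    refine le_trans (le_inf inf_le_left ?_) ((le_Op_iff L).mp hp x)
    rw [le_compl_iff_disjoint_right, disjoint_iff]
    exact hd x
  have h2 : p ⊓ h x ≤ ⨆ j, (h x ⊓ ⨅ s, wv μ L x j s ⇨ (k s)ᶜ) := by
    rw [← inf_iSup_eq]
    exact le_inf inf_le_right h1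
  refine h2.trans (iSup_le fun j => ?_)
  obtain ⟨q, hq1, hq2⟩ := hx j
  refine le_iSup_of_le q (le_inf (le_inf ?_ ?_) (le_iInf fun q' => ?_))
  · unfold good
    rw [hq1, hq2]
  · rw [hq1, wv_top]
    exact le_top
  · rw [le_himp_iff]
    refine UF.le_of_forall fun V hV => ?_
    unfold good at hV
    simp only [V.inf_mem_iff] at hV
    obtain ⟨⟨hh, -⟩, -, hi⟩ := hV
    have h3 := V.mono hi (iInf_le _ x)
    rw [V.himp_mem_iff, V.compl_mem_iff] at h3
    rw [V.compl_mem_iff]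
    exact fun h4 => h3 h4 hh

omit [IsProbabilityMeasure μ] in
theorem sepa_open (hW : ∀ w : W, Countable {v : W // v < w}) (he : Function.Injective e)
    (h k : W × ℕ → CRAlg μ) (x : W × ℕ) :
    sepa pt ix e L h k x ≤ inn L (sepa pt ix e L h k) x := by
  refine iSup_le fun q => ?_
  have : Finite {q' : Q // e q' < e q} := by
    have h1 : Function.Injective (fun q' : {q' : Q // e q' < e q} =>
        (⟨e q'.1, q'.2⟩ : Fin (e q))) := by
      intro a b hab
      simp only [Fin.mk.injEq] at hab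
      exact Subtype.ext (he hab)
    exact Finite.of_injective _ h1
  have h1 : good pt ix L h k q ⊓ wv μ L (pt q) (ix q) x ≤
      inn L (fun t => good pt ix L h k q ⊓ wv μ L (pt q) (ix q) t) x :=
    (inf_le_inf (inn_const L _ x) (wv_open L hW (pt q) (ix q) x)).trans (inn_inf L hW _ _ x)
  have h2 : (⨅ q' : {q' : Q // e q' < e q},
      (good pt ix L k h q'.1 ⇨ (wv μ L (pt q'.1) (ix q'.1) x)ᶜ)) ≤
      inn L (fun t => ⨅ q' : {q' : Q // e q' < e q},
        (good pt ix L k h q'.1 ⇨ (wv μ L (pt q'.1) (ix q'.1) t)ᶜ)) x := by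
    refine le_trans (iInf_mono fun q' => ?_) (inn_finite L hW
      (fun (q' : {q' : Q // e q' < e q}) t =>
        (good pt ix L k h q'.1 ⇨ (wv μ L (pt q'.1) (ix q'.1) t)ᶜ)) x)
    rw [himp_eq]
    refine sup_le ?_ ?_
    · refine (wv_closed L hW _ _ x).trans (inn_mono L (fun t => ?_) x)
      exact le_himp
    · refine (inn_const L _ x).trans (inn_mono L (fun t => ?_) x)
      rw [himp_eq]
      exact le_sup_right
  refine (inf_le_inf h1 h2).trans ((inn_inf L hW _ _ x).trans (inn_mono L (fun t => ?_) x))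
  exact le_iSup (fun q : Q => (good pt ix L h k q ⊓ wv μ L (pt q) (ix q) t) ⊓
    ⨅ q' : {q' : Q // e q' < e q},
      (good pt ix L k h q'.1 ⇨ (wv μ L (pt q'.1) (ix q'.1) t)ᶜ)) q

omit [IsProbabilityMeasure μ] in
theorem sepa_eq_bot {h k : W × ℕ → CRAlg μ} {x : W × ℕ} (hx : ∀ q, (pt q).1 < x.1) :
    sepa pt ix e L h k x = ⊥ := by
  unfold sepa
  rw [← le_bot_iff]
  refine iSup_le fun q => ?_
  rw [wv_pos L (not_le.mpr (hx q))]
  exact inf_le_left.trans inf_le_right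

end sep

/-- Separation of disjoint closed sets. -/
theorem normal [WellFoundedLT W] [Uncountable W] (hW : ∀ w : W, Countable {v : W // v < w})
    (L : Lad W) (p : CRAlg μ) (h k : W × ℕ → CRAlg μ) (hp : p ≤ Op L (fun t => (h t)ᶜ))
    (hp' : p ≤ Op L (fun t => (k t)ᶜ)) (hd : ∀ t, p ⊓ h t ⊓ k t = ⊥) :
    ∃ g g' : W × ℕ → CRAlg μ, p ≤ Op L g ∧ p ≤ Op L g' ∧ (∀ t, p ⊓ h t ≤ g t) ∧
      (∀ t, p ⊓ k t ≤ g' t) ∧ ∀ t, p ⊓ g t ⊓ g' t = ⊥ := by
  classical
  obtain ⟨δ₀, hδ₀⟩ := disjoint_closed hW L p h k hp hp' hd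
  have hc1 : Countable {v : W // v ≤ δ₀} := by
    have h3 : (Iio δ₀).Countable := Set.countable_coe_iff.mp (hW δ₀)
    have h4 : (Iic δ₀).Countable := by
      rw [← Iio_insert]
      exact h3.insert δ₀
    exact h4.to_subtype
  let Q : Type := ({v : W // v ≤ δ₀} × ℕ) × ℕ
  let pt : Q → W × ℕ := fun q => (q.1.1.1, q.1.2)
  let ix : Q → ℕ := fun q => q.2
  obtain ⟨e, he⟩ := exists_injective_nat Q
  have hpt : ∀ x : W × ℕ, x.1 ≤ δ₀ → ∀ j, ∃ q, pt q = x ∧ ix q = j := fun x hx j =>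
    ⟨((⟨x.1, hx⟩, x.2), j), rfl, rfl⟩
  have hpt' : ∀ x : W × ℕ, δ₀ < x.1 → ∀ q, (pt q).1 < x.1 := fun x hx q =>
    lt_of_le_of_lt q.1.1.2 hx
  set c : CRAlg μ := ⨆ t : {t : W × ℕ // δ₀ < t.1}, h t.1 with hc
  have hopen : ∀ (h' k' : W × ℕ → CRAlg μ) (c' : CRAlg μ), p ≤ Op L (fun t =>
      sepa pt ix e L h' k' t ⊔ (if δ₀ < t.1 then c' else ⊥)) := by
    intro h' k' c'
    rw [le_Op_iff]
    intro x
    refine inf_le_right.trans (sup_le ?_ ?_)
    · exact (sepa_open hW he h' k' x).trans (inn_mono L (fun t => le_sup_left) x)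
    · by_cases hx : δ₀ < x.1
      · rw [if_pos hx]
        exact (inn_above L hW hx c').trans (inn_mono L (fun t => le_sup_right) x)
      · rw [if_neg hx]
        exact bot_le
  have hd' : ∀ t, p ⊓ k t ⊓ h t = ⊥ := fun t => by
    rw [inf_assoc, inf_comm (k t), ← inf_assoc]
    exact hd t
  refine ⟨_, _, hopen h k c, hopen k h cᶜ, fun t => ?_, fun t => ?_, fun t => ?_⟩
  · by_cases ht : δ₀ < t.1
    · refine le_sup_of_le_right ?_
      rw [if_pos ht]
      exact inf_le_right.trans (le_iSup (fun t : {t : W × ℕ // δ₀ < t.1} => h t.1) ⟨t, ht⟩)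
    · exact le_sup_of_le_left (le_sepa hp' hd t (hpt t (not_lt.mp ht)))
  · by_cases ht : δ₀ < t.1
    · refine le_sup_of_le_right ?_
      rw [if_pos ht, le_compl_iff_disjoint_right, disjoint_iff_inf_le]
      refine le_trans ?_ hδ₀.le
      refine le_inf (le_inf (inf_le_left.trans inf_le_left) inf_le_right) ?_
      exact (inf_le_left.trans inf_le_right).trans
        (le_iSup (fun t : {t : W × ℕ // δ₀ < t.1} => k t.1) ⟨t, ht⟩)
    · exact le_sup_of_le_left (le_sepa hp hd' t (hpt t (not_lt.mp ht)))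
  · by_cases ht : δ₀ < t.1
    · rw [if_pos ht, if_pos ht, sepa_eq_bot (hpt' t ht), sepa_eq_bot (hpt' t ht), bot_sup_eq,
        bot_sup_eq, inf_assoc, inf_compl_self, inf_bot_eq]
    · rw [if_neg ht, if_neg ht, sup_bot_eq, sup_bot_eq]
      exact sepa_disj he hd t

end

end Pool.Agent.CR
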