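import Pool.Agent.Lib_helper75.CohenRandom.Algebra

/-!
Random reals: countable supports of measurable sets, and the probability that a random real agrees
with an independent sequence.
-/

set_option autoImplicit false

namespace Pool.Agent.CR

open Filter Topology Set MeasureTheory Pool.Agent.BVM

/-- A fair coin. -/
noncomputable def coin : Measure Bool := (2⁻¹ : ENNReal) • (Measure.dirac true + Measure.dirac false)

instance : IsProbabilityMeasure coin := by
  constructor
  unfold coin
  rw [Measure.smul_apply, Measure.add_apply, measure_univ, measure_univ, smul_eq_mul, one_add_one_eq_two]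
  exact ENNReal.inv_mul_cancel (by norm_num) (by norm_num)

theorem coin_map_not : coin.map not = coin := by
  unfold coin
  rw [Measure.map_smul, Measure.map_add _ _ (measurable_of_finite _), Measure.map_dirac,
    Measure.map_dirac, Bool.not_true, Bool.not_false, add_comm]

variable {K : Type}

variable (K) in
/-- The measure of the sequence of the coin tosses. -/
noncomputable def muK : Measure (K × ℕ → Bool) := Measure.infinitePi fun _ => coin

instance : IsProbabilityMeasure (muK K) := by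
  unfold muK
  infer_instance

open Classical in
/-- Change the values at `(ξ, n)` for `n` in `σ`. -/
noncomputable def flipZ (ξ : K) (σ : Finset ℕ) (z : K × ℕ → Bool) : K × ℕ → Bool :=
  fun q => (if q.1 = ξ ∧ q.2 ∈ σ then not else id) (z q)

theorem measurable_flipZ (ξ : K) (σ : Finset ℕ) : Measurable (flipZ ξ σ) := by
  refine measurable_pi_lambda _ fun q => ?_
  exact (measurable_of_finite _).comp (measurable_pi_apply q)

theorem map_flipZ (ξ : K) (σ : Finset ℕ) : (muK K).map (flipZ ξ σ) = muK K := by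
  classical
  unfold muK flipZ
  rw [Measure.infinitePi_map_pi (μ := fun _ : K × ℕ => coin)
    (f := fun q => if q.1 = ξ ∧ q.2 ∈ σ then not else id) (fun q => measurable_of_finite _)]
  congr 1
  funext q
  by_cases h : q.1 = ξ ∧ q.2 ∈ σ
  · rw [if_pos h]; exact coin_map_not
  · rw [if_neg h, Measure.map_id]

/-- Membership in `A` depends only on the coordinates in `D`. -/
def Supp (A : Set (Y × (K × ℕ → Bool))) (D : Set K) : Prop :=
  ∀ y z z', (∀ q : K × ℕ, q.1 ∈ D → z q = z' q) → ((y, z) ∈ A ↔ (y, z') ∈ A)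

theorem Supp.mono {A : Set (Y × (K × ℕ → Bool))} {D D' : Set K} (h : Supp A D) (hD : D ⊆ D') :
    Supp A D' := fun y z z' hz => h y z z' fun q hq => hz q (hD hq)

/-- The σ-algebra of the sets with a countable support. -/
@[reducible] def suppSpace (K : Type) : MeasurableSpace (Y × (K × ℕ → Bool)) where
  MeasurableSet' A := ∃ D : Set K, D.Countable ∧ Supp A D
  measurableSet_empty := ⟨∅, countable_empty, fun _ _ _ _ => Iff.rfl⟩
  measurableSet_compl := by
    rintro A ⟨D, hD, h⟩
    exact ⟨D, hD, fun y z z' hz => not_congr (h y z z' hz)⟩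
  measurableSet_iUnion := by
    intro A h
    choose D hD hA using h
    refine ⟨⋃ i, D i, countable_iUnion hD, fun y z z' hz => ?_⟩
    simp only [mem_iUnion]
    exact exists_congr fun i => hA i y z z' fun q hq => hz q (mem_iUnion.mpr ⟨i, hq⟩)

theorem exists_supp {A : Set (Y × (K × ℕ → Bool))} (hA : MeasurableSet A) :
    ∃ D : Set K, D.Countable ∧ Supp A D := by
  have h1 : @Measurable _ _ (suppSpace K) _ (fun ω : Y × (K × ℕ → Bool) => ω.1) := by
    intro s _
    exact ⟨∅, countable_empty, fun y z z' _ => Iff.rfl⟩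
  have h2 : @Measurable _ _ (suppSpace K) _ (fun ω : Y × (K × ℕ → Bool) => ω.2) := by
    refine @measurable_pi_lambda _ _ _ (suppSpace K) _ _ fun q => ?_
    intro s _
    refine ⟨{q.1}, countable_singleton _, fun y z z' hz => ?_⟩
    show z q ∈ s ↔ z' q ∈ s
    rw [hz q rfl]
  have h3 : @Measurable _ _ (suppSpace K) _ (fun ω : Y × (K × ℕ → Bool) => (ω.1, ω.2)) :=
    @Measurable.prodMk _ (suppSpace K) _ _ _ _ _ _ h1 h2
  exact h3 hA

/-- The event that the random real `ξ` agrees with the sequence given by `S` on `I`. -/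
def agree (S : ℕ → Set (Y × (K × ℕ → Bool))) (ξ : K) (I : Finset ℕ) :
    Set (Y × (K × ℕ → Bool)) :=
  {ω | ∀ n ∈ I, (ω ∈ S n ↔ ω.2 (ξ, n) = true)}

theorem measurableSet_bit (ξ : K) (n : ℕ) :
    MeasurableSet {ω : Y × (K × ℕ → Bool) | ω.2 (ξ, n) = true} := by
  have h : Measurable fun ω : Y × (K × ℕ → Bool) => ω.2 (ξ, n) :=
    (measurable_pi_apply (ξ, n)).comp measurable_snd
  exact h (MeasurableSet.singleton true)

theorem measurableSet_agree {S : ℕ → Set (Y × (K × ℕ → Bool))} (hS : ∀ n, MeasurableSet (S n))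
    (ξ : K) (I : Finset ℕ) : MeasurableSet (agree S ξ I) := by
  have : agree S ξ I = ⋂ n ∈ I, ((S n)ᶜ ∪ {ω : Y × (K × ℕ → Bool) | ω.2 (ξ, n) = true}) ∩
      ({ω : Y × (K × ℕ → Bool) | ω.2 (ξ, n) = true}ᶜ ∪ S n) := by
    ext ω
    simp only [agree, mem_iInter, mem_inter_iff, mem_union, mem_compl_iff, Set.mem_ofPred_eq]
    refine forall₂_congr fun n _ => ?_
    tauto
  rw [this]
  exact Finset.measurableSet_biInter I fun n _ => (((hS n).compl.union (measurableSet_bit ξ n)).inter
    ((measurableSet_bit ξ n).compl.union (hS n)))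

theorem measure_agree {S : ℕ → Set (Y × (K × ℕ → Bool))} (hS : ∀ n, MeasurableSet (S n))
    {D : Set K} (hD : ∀ n, Supp (S n) D) {ξ : K} (hξ : ξ ∉ D) (I : Finset ℕ) (y : Y) :
    muK K (sec (agree S ξ I) y) ≤ (2⁻¹ : ENNReal) ^ I.card := by
  classical
  have hm : MeasurableSet (sec (agree S ξ I) y) := measurable_prodMk_left (measurableSet_agree hS ξ I)
  let E : Finset ℕ → Set (K × ℕ → Bool) := fun σ => flipZ ξ σ ⁻¹' sec (agree S ξ I) y
  have hE : ∀ σ, muK K (E σ) = muK K (sec (agree S ξ I) y) := by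
    intro σ
    conv_rhs => rw [← map_flipZ ξ σ]
    rw [Measure.map_apply (measurable_flipZ ξ σ) hm]
  have hval : ∀ σ z, z ∈ E σ → ∀ n ∈ I, (n ∈ σ ↔ ¬ ((y, z) ∈ S n ↔ z (ξ, n) = true)) := by
    intro σ z hz n hn
    have h1 : (y, flipZ ξ σ z) ∈ S n ↔ flipZ ξ σ z (ξ, n) = true := hz n hn
    have h2 : (y, flipZ ξ σ z) ∈ S n ↔ (y, z) ∈ S n := by
      refine hD n y _ _ fun q hq => ?_
      have h3 : ¬ (q.1 = ξ ∧ q.2 ∈ σ) := fun h => hξ (h.1 ▸ hq)
      simp only [flipZ, if_neg h3, id]
    rw [h2] at h1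
    by_cases hσ : n ∈ σ
    · have h4 : flipZ ξ σ z (ξ, n) = !(z (ξ, n)) := by simp [flipZ, hσ]
      rw [h4] at h1
      cases hz' : z (ξ, n) <;> simp_all
    · have h4 : flipZ ξ σ z (ξ, n) = z (ξ, n) := by simp [flipZ, hσ]
      rw [h4] at h1
      simp [hσ, h1]
  have hdisj : (I.powerset : Set (Finset ℕ)).PairwiseDisjoint E := by
    intro σ hσ τ hτ hστ
    rw [Function.onFun, Set.disjoint_left]
    intro z hz hz'
    apply hστ
    ext n
    by_cases hn : n ∈ I
    · rw [hval σ z hz n hn, hval τ z hz' n hn]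
    · have h1 : σ ⊆ I := Finset.mem_powerset.mp hσ
      have h2 : τ ⊆ I := Finset.mem_powerset.mp hτ
      exact ⟨fun h => absurd (h1 h) hn, fun h => absurd (h2 h) hn⟩
  have h1 : muK K (⋃ σ ∈ I.powerset, E σ) = ∑ σ ∈ I.powerset, muK K (E σ) :=
    measure_biUnion_finset hdisj fun σ _ => measurable_flipZ ξ σ hm
  have h2 : (∑ σ ∈ I.powerset, muK K (E σ)) = 2 ^ I.card * muK K (sec (agree S ξ I) y) := by
    simp only [hE, Finset.sum_const, Finset.card_powerset, nsmul_eq_mul]
    push_cast
    rfl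
  have h3 : (2 : ENNReal) ^ I.card * muK K (sec (agree S ξ I) y) ≤ 1 := by
    rw [← h2, ← h1]
    exact prob_le_one
  rw [← ENNReal.inv_pow, ENNReal.le_inv_iff_mul_le, mul_comm]
  exact h3

/-- A random real agrees with an independent sequence on only finitely many of the sets `I i`. -/
theorem neg_agree {S : ℕ → Set (Y × (K × ℕ → Bool))} (hS : ∀ n, MeasurableSet (S n))
    {D : Set K} (hD : ∀ n, Supp (S n) D) {ξ : K} (hξ : ξ ∉ D) (I : ℕ → Finset ℕ)
    (hI : ∀ i, (I i).card = i) :
    Neg (muK K) {ω | ¬ ∃ k, ∀ i, k ≤ i → ω ∉ agree S ξ (I i)} := by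
  refine Neg.of_forall fun y => ?_
  have h1 : muK K (limsup (fun i => sec (agree S ξ (I i)) y) atTop) = 0 := by
    refine measure_limsup_atTop_eq_zero ?_
    have h2 : (∑' i, muK K (sec (agree S ξ (I i)) y)) ≤ ∑' i : ℕ, (2⁻¹ : ENNReal) ^ i := by
      refine ENNReal.tsum_le_tsum fun i => ?_
      have h3 := measure_agree hS hD hξ (I i) y
      rwa [hI i] at h3
    have h4 : (∑' i : ℕ, (2⁻¹ : ENNReal) ^ i) = 2 := by
      rw [ENNReal.tsum_geometric, ENNReal.one_sub_inv_two, inv_inv]
    rw [h4] at h2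
    exact ne_top_of_le_ne_top (by norm_num) h2
  refine measure_mono_null (fun z hz => ?_) h1
  rw [mem_limsup_iff_frequently_mem, frequently_atTop]
  intro k
  have hz' : ¬ ∃ k, ∀ i, k ≤ i → (y, z) ∉ agree S ξ (I i) := hz
  push Not at hz'
  obtain ⟨i, hi, h5⟩ := hz' k
  exact ⟨i, hi, h5⟩

end Pool.Agent.CR
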