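import Pool.Agent.Lib_helper75.CohenRandom.Category

/-!
The basic neighbourhoods of a topology on `W × ℕ` that is given by ladders and a point of the
Baire space.
-/

set_option autoImplicit false

namespace Pool.Agent.CR

open Set

/-- Ladders, and codes for the initial segments. -/
structure Lad (W : Type) [LinearOrder W] where
  eta : W → ℕ → W
  mono : ∀ δ, Monotone (eta δ)
  lt : ∀ δ v n, v < δ → eta δ n < δ
  cof : ∀ δ v, v < δ → ∃ n, v ≤ eta δ n
  code : W → W → ℕ
  inj : ∀ δ v v', v < δ → v' < δ → code δ v = code δ v' → v = v'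

theorem Lad.exists {W : Type} [LinearOrder W] (hW : ∀ w : W, Countable {v : W // v < w}) :
    Nonempty (Lad W) := by
  have h1 : ∀ δ : W, ∃ η : ℕ → W, Monotone η ∧ (∀ v n, v < δ → η n < δ) ∧
      ∀ v, v < δ → ∃ n, v ≤ η n := by
    intro δ
    by_cases h : Nonempty {v : W // v < δ}
    · have := hW δ
      obtain ⟨g, hg⟩ := exists_surjective_nat {v : W // v < δ}
      refine ⟨fun n => partialSups (fun n => (g n).1) n, ?_, ?_, ?_⟩
      · exact (partialSups fun n => (g n).1).monotone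
      · intro v n _
        show partialSups (fun n => (g n).1) n < δ
        induction n with
        | zero => rw [partialSups_zero]; exact (g 0).2
        | succ n ih =>
          rw [partialSups_add_one]
          exact max_lt ih (g (n + 1)).2
      · intro v hv
        obtain ⟨n, hn⟩ := hg ⟨v, hv⟩
        refine ⟨n, ?_⟩
        have := le_partialSups (fun n => (g n).1) n
        simp only [hn] at this
        exact this
    · refine ⟨fun _ => δ, monotone_const, ?_, ?_⟩
      · intro v n hv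
        exact absurd ⟨⟨v, hv⟩⟩ h
      · intro v hv
        exact absurd ⟨⟨v, hv⟩⟩ h
  have h2 : ∀ δ : W, ∃ e : W → ℕ, ∀ v v', v < δ → v' < δ → e v = e v' → v = v' := by
    intro δ
    have := hW δ
    obtain ⟨g, hg⟩ := exists_injective_nat {v : W // v < δ}
    classical
    refine ⟨fun v => if hv : v < δ then g ⟨v, hv⟩ else 0, ?_⟩
    intro v v' hv hv' h
    simp only [hv, hv', dif_pos] at h
    exact congrArg Subtype.val (hg h)
  choose η a b c using h1
  choose e he using h2
  exact ⟨⟨η, a, b, c, e, he⟩⟩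

/-- The sequence of the levels. -/
def kk (y : Y) : ℕ → ℕ
  | 0 => 0
  | i + 1 => kk y i + 1 + y i

theorem kk_succ (y : Y) (i : ℕ) : kk y (i + 1) = kk y i + 1 + y i := rfl

theorem kk_strictMono (y : Y) : StrictMono (kk y) := by
  refine strictMono_nat_of_lt_succ fun i => ?_
  rw [kk_succ]
  omega

theorem le_kk (y : Y) (i : ℕ) : i ≤ kk y i := (kk_strictMono y).le_apply

theorem kk_congr {y y' : Y} {i : ℕ} (h : ∀ l < i, y l = y' l) : kk y i = kk y' i := by
  induction i with
  | zero => rfl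
  | succ i ih =>
    rw [kk_succ, kk_succ, ih (fun l hl => h l (by omega)), h i (by omega)]

variable {W : Type} [LinearOrder W] (L : Lad W)

/-- The finite set of the positions to which the position `δ` is connected in the stage `i`. -/
def FF (y : Y) (δ : W) (i : ℕ) : Set W :=
  {v | v < δ ∧ L.eta δ (kk y i) < v ∧ v ≤ L.eta δ (kk y (i + 1)) ∧ L.code δ v < y i}

theorem finite_FF (y : Y) (δ : W) (i : ℕ) : (FF L y δ i).Finite := by
  refine Set.Finite.of_finite_image (f := L.code δ) ?_ ?_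
  · refine (Set.finite_lt_nat (y i)).subset ?_
    rintro _ ⟨v, hv, rfl⟩
    exact hv.2.2.2
  · intro v hv v' hv' h
    exact L.inj δ v v' hv.1 hv'.1 h

/-- The least level of the ladder of `v` at which it is above `u`. -/
noncomputable def lev (v u : W) : ℕ := sInf {l | u ≤ L.eta v l}

theorem le_eta_lev {v u : W} (h : u < v) : u ≤ L.eta v (lev L v u) :=
  Nat.sInf_mem (s := {l | u ≤ L.eta v l}) (L.cof v u h)

/-- The basic neighbourhoods of the point `(δ, n)`. -/
def Nb (y : Y) : ℕ → W → ℕ → Set (W × ℕ)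
  | 0, δ, _ => {(δ, 0)}
  | n + 1, δ, j => {(δ, n + 1)} ∪ {t | ∃ i, j ≤ i ∧ (Nat.unpair i).1 = n ∧
      ∃ v ∈ FF L y δ i, t ∈ Nb y n v (lev L v (L.eta δ (kk y i)))}

variable {L} {y : Y} {n : ℕ} {δ : W} {j : ℕ}

theorem Nb_zero : Nb L y 0 δ j = {(δ, 0)} := rfl

theorem mem_Nb_succ {t : W × ℕ} : t ∈ Nb L y (n + 1) δ j ↔ t = (δ, n + 1) ∨
    ∃ i, j ≤ i ∧ (Nat.unpair i).1 = n ∧
      ∃ v ∈ FF L y δ i, t ∈ Nb L y n v (lev L v (L.eta δ (kk y i))) := Iff.rfl

theorem top_mem_Nb : (δ, n) ∈ Nb L y n δ j := by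
  cases n with
  | zero => exact rfl
  | succ n => exact Or.inl rfl

theorem Nb_anti {j' : ℕ} (h : j ≤ j') : Nb L y n δ j' ⊆ Nb L y n δ j := by
  cases n with
  | zero => exact subset_rfl
  | succ n =>
    rintro t (ht | ⟨i, hi, h1⟩)
    · exact Or.inl ht
    · exact Or.inr ⟨i, h.trans hi, h1⟩

theorem loc_Nb {t : W × ℕ} (ht : t ∈ Nb L y n δ j) : t = (δ, n) ∨ (t.2 < n ∧ t.1 < δ ∧
    L.eta δ (kk y j) < t.1 ∧ ∃ i, j ≤ i ∧ (Nat.unpair i).1 + 1 = n ∧ L.eta δ (kk y i) < t.1 ∧
      t.1 ≤ L.eta δ (kk y (i + 1))) := by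
  induction n generalizing δ j t with
  | zero => exact Or.inl ht
  | succ n ih =>
    rcases ht with ht | ⟨i, hi, hn, v, hv, ht⟩
    · exact Or.inl ht
    · right
      have h0 : L.eta δ (kk y j) ≤ L.eta δ (kk y i) := L.mono δ ((kk_strictMono y).monotone hi)
      rcases ih ht with rfl | ⟨h1, h2, h3, -⟩
      · exact ⟨Nat.lt_succ_self _, hv.1, lt_of_le_of_lt h0 hv.2.1, i, hi, by omega, hv.2.1,
          hv.2.2.1⟩
      · have h4 : L.eta δ (kk y i) < t.1 := by
          refine lt_of_le_of_lt (le_eta_lev L hv.2.1) (lt_of_le_of_lt ?_ h3)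
          exact L.mono v (le_kk y _)
        exact ⟨by omega, h2.trans hv.1, lt_of_le_of_lt h0 h4, i, hi, by omega, h4,
          h2.le.trans hv.2.2.1⟩

theorem Nb_pos_le {t : W × ℕ} (ht : t ∈ Nb L y n δ j) : t.1 ≤ δ := by
  rcases loc_Nb ht with rfl | ⟨-, h, -⟩
  · exact le_rfl
  · exact h.le

theorem Nb_layer_le {t : W × ℕ} (ht : t ∈ Nb L y n δ j) : t.2 ≤ n := by
  rcases loc_Nb ht with rfl | ⟨h, -⟩
  · exact le_rfl
  · exact h.le

theorem Nb_open {t : W × ℕ} (ht : t ∈ Nb L y n δ j) : ∃ j', Nb L y t.2 t.1 j' ⊆ Nb L y n δ j := by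
  induction n generalizing δ j t with
  | zero =>
    obtain rfl : t = (δ, 0) := ht
    exact ⟨j, subset_rfl⟩
  | succ n ih =>
    rcases ht with ht | ⟨i, hi, hn, v, hv, ht⟩
    · obtain rfl : t = (δ, n + 1) := ht
      exact ⟨j, subset_rfl⟩
    · obtain ⟨j', hj'⟩ := ih ht
      exact ⟨j', hj'.trans fun x hx => Or.inr ⟨i, hi, hn, v, hv, hx⟩⟩

theorem Nb_sep {t p : W × ℕ} (h : p ≠ t) : ∃ j', p ∉ Nb L y t.2 t.1 j' := by
  by_cases h1 : p.1 < t.1
  · obtain ⟨j', hj'⟩ := L.cof _ _ h1
    refine ⟨j', fun hp => ?_⟩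
    rcases loc_Nb hp with h2 | ⟨-, -, h3, -⟩
    · exact h h2
    · exact absurd (hj'.trans (L.mono _ (le_kk y j'))) (not_le.mpr h3)
  · refine ⟨0, fun hp => ?_⟩
    rcases loc_Nb hp with h2 | ⟨-, h3, -⟩
    · exact h h2
    · exact h1 h3

theorem exists_bound {α : Type*} {S : Set α} (hS : S.Finite) (J : α → ℕ) :
    ∃ j, ∀ a ∈ S, J a ≤ j := by
  obtain ⟨j, hj⟩ := (hS.image J).bddAbove
  exact ⟨j, fun a ha => hj (mem_image_of_mem J ha)⟩

theorem Nb_closed {t : W × ℕ} (ht : t ∉ Nb L y n δ j) :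
    ∃ j', Disjoint (Nb L y t.2 t.1 j') (Nb L y n δ j) := by
  induction n generalizing δ j with
  | zero =>
    obtain ⟨j', hj'⟩ := Nb_sep (L := L) (y := y) (t := t) (p := (δ, 0)) (fun h => ht h.symm)
    refine ⟨j', ?_⟩
    rw [Nb_zero, disjoint_singleton_right]
    exact hj'
  | succ n ih =>
    rcases lt_trichotomy δ t.1 with hlt | heq | hgt
    · obtain ⟨j', hj'⟩ := L.cof _ _ hlt
      refine ⟨j', ?_⟩
      rw [Set.disjoint_left]
      intro x hx hx'
      rcases loc_Nb hx with h2 | ⟨-, -, h3, -⟩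
      · rw [h2] at hx'
        exact ht hx'
      · have h4 := Nb_pos_le hx'
        exact absurd (h4.trans (hj'.trans (L.mono _ (le_kk y j')))) (not_le.mpr h3)
    · refine ⟨0, ?_⟩
      rw [Set.disjoint_left]
      intro x hx hx'
      rcases loc_Nb hx with h2 | ⟨-, h3, -, i, -, hi2, hi3, hi4⟩
      · rw [h2] at hx'
        exact ht hx'
      · rcases loc_Nb hx' with h5 | ⟨-, h6, -, i', -, hi2', hi3', hi4'⟩
        · rw [h5, heq] at h3
          exact lt_irrefl _ h3
        · rw [heq] at hi3' hi4'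
          have hii : i = i' := by
            rcases lt_trichotomy i i' with h | h | h
            · exact absurd (hi4.trans (L.mono _ ((kk_strictMono y).monotone
                (Nat.succ_le_of_lt h)))) (not_le.mpr hi3')
            · exact h
            · exact absurd (hi4'.trans (L.mono _ ((kk_strictMono y).monotone
                (Nat.succ_le_of_lt h)))) (not_le.mpr hi3)
          subst hii
          have h7 : t = (δ, n + 1) := by
            refine Prod.ext heq.symm ?_
            show t.2 = n + 1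
            omega
          exact ht (h7 ▸ top_mem_Nb)
    · obtain ⟨i₀, hi₀⟩ := L.cof _ _ hgt
      have hi₀' : t.1 ≤ L.eta δ (kk y i₀) := hi₀.trans (L.mono _ (le_kk y i₀))
      let S : Set (ℕ × W) := {q | q.1 < i₀ ∧ q.2 ∈ FF L y δ q.1}
      have hS : S.Finite := by
        have : S ⊆ ⋃ i ∈ {i | i < i₀}, (fun v => (i, v)) '' FF L y δ i := by
          rintro ⟨i, v⟩ ⟨h1, h2⟩
          exact mem_biUnion h1 ⟨v, h2, rfl⟩
        refine Set.Finite.subset ?_ this
        exact (finite_lt_nat i₀).biUnion fun i _ => (finite_FF L y δ i).image _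
      have hJ : ∀ q : ℕ × W, ∃ j', (j ≤ q.1 ∧ (Nat.unpair q.1).1 = n ∧ q.2 ∈ FF L y δ q.1) →
          Disjoint (Nb L y t.2 t.1 j') (Nb L y n q.2 (lev L q.2 (L.eta δ (kk y q.1)))) := by
        rintro ⟨i, v⟩
        by_cases h : j ≤ i ∧ (Nat.unpair i).1 = n ∧ v ∈ FF L y δ i
        · obtain ⟨j', hj'⟩ := ih (δ := v) (j := lev L v (L.eta δ (kk y i)))
            (fun h' => ht (Or.inr ⟨i, h.1, h.2.1, v, h.2.2, h'⟩))
          exact ⟨j', fun _ => hj'⟩
        · exact ⟨0, fun h' => absurd h' h⟩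
      choose J hJ using hJ
      obtain ⟨j', hj'⟩ := exists_bound hS J
      refine ⟨j', ?_⟩
      rw [Set.disjoint_left]
      intro x hx hx'
      have hx1 : x.1 ≤ t.1 := Nb_pos_le hx
      rcases hx' with h1 | ⟨i, hi, hn, v, hv, h2⟩
      · rw [show x = (δ, n + 1) from h1] at hx1
        exact absurd hx1 (not_le.mpr hgt)
      · have h3 : i < i₀ := by
          by_contra hcon
          have h4 : x ∈ Nb L y (n + 1) δ i := Or.inr ⟨i, le_rfl, hn, v, hv, h2⟩
          have h5 : L.eta δ (kk y i) < x.1 := by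
            rcases loc_Nb h4 with h6 | ⟨-, -, h7, -⟩
            · rw [h6] at hx1
              exact absurd hx1 (not_le.mpr hgt)
            · exact h7
          have h8 : L.eta δ (kk y i₀) ≤ L.eta δ (kk y i) :=
            L.mono _ ((kk_strictMono y).monotone (not_lt.mp hcon))
          exact absurd (hx1.trans (hi₀'.trans h8)) (not_le.mpr h5)
        have h9 := hJ (i, v) ⟨hi, hn, hv⟩
        exact Set.disjoint_left.mp h9 (Nb_anti (hj' (i, v) ⟨h3, hv⟩) hx) h2

/-- Every neighbourhood of a point is disjoint from a given smaller initial segment, from some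
index on. -/
theorem Nb_above {t : W × ℕ} {α : W} (h : α < t.1) :
    ∃ j', ∀ x ∈ Nb L y t.2 t.1 j', α < x.1 := by
  obtain ⟨j', hj'⟩ := L.cof _ _ h
  refine ⟨j', fun x hx => ?_⟩
  rcases loc_Nb hx with h2 | ⟨-, -, h3, -⟩
  · rw [h2]; exact h
  · exact lt_of_le_of_lt (hj'.trans (L.mono _ (le_kk y j'))) h3

/-! ### Measurability -/

theorem measurable_kk (i : ℕ) : Measurable fun y : Y => kk y i := by
  induction i with
  | zero => exact measurable_const
  | succ i ih =>
    show Measurable fun y : Y => kk y i + 1 + y i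
    exact (ih.add measurable_const).add (measurable_pi_apply i)

theorem measurableSet_FF (L : Lad W) (δ v : W) (i : ℕ) : MeasurableSet {y : Y | v ∈ FF L y δ i} := by
  have : {y : Y | v ∈ FF L y δ i} = {y : Y | v < δ} ∩ ((fun y => kk y i) ⁻¹' {k | L.eta δ k < v} ∩
      ((fun y => kk y (i + 1)) ⁻¹' {k | v ≤ L.eta δ k} ∩ (fun y : Y => y i) ⁻¹'
        {k | L.code δ v < k})) := rfl
  rw [this]
  exact (MeasurableSet.const _).inter (((measurable_kk i) (MeasurableSet.of_discrete)).inter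
    (((measurable_kk (i + 1)) (MeasurableSet.of_discrete)).inter
      ((measurable_pi_apply i) (MeasurableSet.of_discrete))))

theorem measurableSet_Nb (hW : ∀ w : W, Countable {v : W // v < w}) (L : Lad W) (n : ℕ) (δ : W)
    (j : ℕ) (t : W × ℕ) : MeasurableSet {y : Y | t ∈ Nb L y n δ j} := by
  induction n generalizing δ j with
  | zero => exact MeasurableSet.const (t ∈ ({(δ, 0)} : Set (W × ℕ)))
  | succ n ih =>
    have := hW δ
    have h1 : {y : Y | t ∈ Nb L y (n + 1) δ j} = {y : Y | t = (δ, n + 1)} ∪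
        ⋃ (i : ℕ) (v : {v : W // v < δ}) (K : ℕ), ({y : Y | j ≤ i ∧ (Nat.unpair i).1 = n} ∩
          {y : Y | kk y i = K}) ∩ ({y : Y | v.1 ∈ FF L y δ i} ∩
            {y : Y | t ∈ Nb L y n v.1 (lev L v.1 (L.eta δ K))}) := by
      ext y
      simp only [mem_union, mem_iUnion, mem_inter_iff, mem_ofPred_eq]
      rw [mem_Nb_succ]
      constructor
      · rintro (h | ⟨i, hi, hn, v, hv, h⟩)
        · exact Or.inl h
        · exact Or.inr ⟨i, ⟨v, hv.1⟩, kk y i, ⟨⟨hi, hn⟩, rfl⟩, hv, h⟩
      · rintro (h | ⟨i, v, K, ⟨⟨hi, hn⟩, rfl⟩, hv, h⟩)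
        · exact Or.inl h
        · exact Or.inr ⟨i, hi, hn, v.1, hv, h⟩
    rw [h1]
    refine (MeasurableSet.const _).union (MeasurableSet.iUnion fun i => MeasurableSet.iUnion
      fun v => MeasurableSet.iUnion fun K => ((MeasurableSet.const _).inter ?_).inter
        ((measurableSet_FF L δ v.1 i).inter (ih v.1 _)))
    exact (measurable_kk i) (MeasurableSet.singleton K)

end Pool.Agent.CR
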